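import Mathlib

/-!
# CTS: definitions (symmetric circulant TSP, one class of chords)  (helper32)
-/

open Finset

namespace Pool.CTS

/-- The cost of the closed tour `f 0 → f 1 → ⋯ → f (n-1) → f 0`: the step from `x` to `y` costs
`c (y - x)`. -/
noncomputable def tourCost {n : ℕ} [NeZero n] (c : ZMod n → ℝ) (f : ZMod n ≃ ZMod n) : ℝ :=
  ∑ i, c (f (i + 1) - f i)

/-- Successor permutation of a tour. -/
def next {n : ℕ} (f : ZMod n ≃ ZMod n) : Equiv.Perm (ZMod n) :=
  (f.symm.trans (Equiv.addRight 1)).trans f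

/-- `x` lies in the class `v + ⟨a⟩`. -/
def OnLine {n : ℕ} (a v x : ZMod n) : Prop := ∃ k : ℤ, x = v + k • a

/-- `x` is dominated by line chords: `x` is the displacement of an alternating walk
`ε₁b₁ ± a + ε₂b₂ ± a + ⋯ + εₘbₘ` (`m ≥ 1`, `εⱼ = ±1`, all `bⱼ` in `v + ⟨a⟩`) with
`w b₁ + ⋯ + w bₘ ≤ w x`. The list consists of the pairs `(εⱼ, bⱼ)`; the `m - 1` signs of `a` add up to
`τ`, which is any integer with `|τ| ≤ m - 1` and the parity of `m - 1`. -/
def Dominated {n : ℕ} (w : ZMod n → ℝ) (a v x : ZMod n) : Prop :=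
  ∃ (l : List (ℤ × ZMod n)) (τ : ℤ), l ≠ [] ∧
    (∀ p ∈ l, (p.1 = 1 ∨ p.1 = -1) ∧ OnLine a v p.2) ∧
    |τ| ≤ (l.length : ℤ) - 1 ∧ Even (τ - ((l.length : ℤ) - 1)) ∧
    x = (l.map fun p => p.1 • p.2).sum + τ • a ∧
    (l.map fun p => w p.2).sum ≤ w x

/-- `x` is expensive: `x ∈ y v + ⟨a⟩` for an integer `y` with `w x ≥ (g - 2 + |y|) m`. -/
def Expensive {n : ℕ} (w : ZMod n → ℝ) (g : ℕ) (m : ℝ) (a v x : ZMod n) : Prop :=
  ∃ y k : ℤ, x = y • v + k • a ∧ ((g : ℝ) - 2 + |(y : ℝ)|) * m ≤ w x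

/-- A winding pattern: `u` (up chords), `d` (down chords), and `Γ` with the closing relation. -/
def Pattern {n : ℕ} (g : ℕ) (a v : ZMod n) (i : ℕ) (u d : List (ZMod n)) (Γ : ℤ) : Prop :=
  u.length = g + i ∧ d.length = i ∧ (∀ b ∈ u, OnLine a v b) ∧ (∀ b ∈ d, OnLine a v b) ∧
    |Γ| ≤ (g : ℤ) + 2 * i ∧ Even (Γ - g) ∧ u.sum - d.sum + Γ • a = 0

/-- Coordinates of `ℤ/n` relative to `a` and `v`. -/
structure Coord (n g r : ℕ) (a v : ZMod n) where
  /-- the class of an element modulo `⟨a⟩` -/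
  q : ZMod n →+ ZMod g
  qa : q a = 0
  qv : q v = 1
  ker : ∀ x, q x = 0 → ∃ k : ℕ, k < r ∧ x = k • a
  ra : r • a = 0
  hr : 2 ≤ r
  hg : 2 ≤ g
  hn : g * r = n

/-- `w` is a word (list of steps) that starts in class `0`, visits all elements of the classes
`0, …, K-1` before its last step, and ends in class `K`. -/
def Covers {n g r : ℕ} {a v : ZMod n} (C : Coord n g r a v) (w : List (ZMod n)) (K : ℕ) : Prop :=
  C.q w.sum = K ∧ ∀ x, (∃ k : ℕ, k < K ∧ C.q x = k) → ∃ j < w.length, (w.take j).sum = x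

/-- Number of times the `±1`-walk with steps `l` from `p` crosses the boundary between `j` and
`j + 1` in `ℤ/g`. -/
def crossCount {g : ℕ} (j : ZMod g) : ZMod g → List ℤ → ℕ
  | _, [] => 0
  | p, e :: l => (if e = 1 then (if p = j then 1 else 0) else (if p = j + 1 then 1 else 0)) +
      crossCount j (p + (e : ZMod g)) l

/-- The signed version of `crossCount`. -/
def crossNet {g : ℕ} (j : ZMod g) : ZMod g → List ℤ → ℤ
  | _, [] => 0
  | p, e :: l => (if e = 1 then (if p = j then 1 else 0) else (if p = j + 1 then -1 else 0)) +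
      crossNet j (p + (e : ZMod g)) l

/-- The dynamic programme: `D w L j x` is the least total weight of `j` elements of `L` (repetitions
allowed) with sum `x`. -/
noncomputable def D {n : ℕ} (w : ZMod n → ℝ) (L : Finset (ZMod n)) : ℕ → ZMod n → WithTop ℝ
  | 0, x => if x = 0 then 0 else ⊤
  | j + 1, x => L.inf fun b => (w b : WithTop ℝ) + D w L j (x - b)

end Pool.CTS
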