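import Pool.Agent.CTS.Defs

/-! # Module Wrd -/

open Finset

namespace Pool.CTS

private theorem Wrd_sum {n : ℕ} (c : ZMod n → ℝ) (w : List (ZMod n)) :
    (w.map c).sum = ∑ k ∈ Finset.range w.length, c (w.getD k 0) := by
  induction w with
  | nil => simp
  | cons b w ih =>
    rw [List.map_cons, List.sum_cons, List.length_cons, Finset.sum_range_succ', ih]
    simp only [List.getD_cons_succ, List.getD_cons_zero]
    rw [add_comm]

private theorem Wrd_take {n : ℕ} (w : List (ZMod n)) (k : ℕ) (hk : k < w.length) :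
    (w.take (k + 1)).sum = (w.take k).sum + w.getD k 0 := by
  rw [List.take_add_one]
  rw [List.getElem?_eq_getElem hk, Option.toList_some, List.sum_append, List.sum_singleton]
  congr 1
  simp [List.getD_eq_getElem?_getD, List.getElem?_eq_getElem hk]

theorem tour_of_word {n : ℕ} [NeZero n] (c : ZMod n → ℝ) (w : List (ZMod n)) (hl : w.length = n)
    (hs : w.sum = 0) (hv : ∀ x, ∃ j < n, (w.take j).sum = x) :
    ∃ f : ZMod n ≃ ZMod n, tourCost c f = (w.map c).sum := by
  have hsurj : Function.Surjective (fun i : ZMod n => (w.take i.val).sum) := by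
    intro x
    obtain ⟨j, hj, hx⟩ := hv x
    refine ⟨(j : ZMod n), ?_⟩
    simp only
    rw [ZMod.val_natCast_of_lt hj, hx]
  have hbij : Function.Bijective (fun i : ZMod n => (w.take i.val).sum) :=
    Finite.surjective_iff_bijective.mp hsurj
  refine ⟨Equiv.ofBijective _ hbij, ?_⟩
  have hn : 0 < n := Nat.pos_of_ne_zero (NeZero.ne n)
  have hstep : ∀ i : ZMod n, (w.take (i + 1).val).sum - (w.take i.val).sum = w.getD i.val 0 := by
    intro i
    have hi : i.val < n := ZMod.val_lt i
    have h1 := Wrd_take w i.val (by omega)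
    by_cases h : i.val + 1 < n
    · have h2 : (i + 1).val = i.val + 1 := by
        have h3 : i + 1 = ((i.val + 1 : ℕ) : ZMod n) := by
          push_cast
          rw [ZMod.natCast_zmod_val]
        rw [h3, ZMod.val_natCast_of_lt h]
      rw [h2, h1]
      ring
    · have h4 : i.val + 1 = n := by omega
      have h3 : i + 1 = 0 := by
        have h5 : i + 1 = ((i.val + 1 : ℕ) : ZMod n) := by
          push_cast
          rw [ZMod.natCast_zmod_val]
        rw [h5, h4, ZMod.natCast_self]
      rw [h3, ZMod.val_zero, List.take_zero, List.sum_nil, zero_sub]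
      have h6 : (w.take (i.val + 1)).sum = 0 := by
        rw [h4, List.take_of_length_le (by omega), hs]
      rw [h6] at h1
      exact (eq_neg_of_add_eq_zero_right h1.symm).symm
  unfold tourCost
  simp only [Equiv.ofBijective_apply]
  rw [Wrd_sum, hl]
  have h7 : ∑ i : ZMod n, c ((w.take (i + 1).val).sum - (w.take i.val).sum) =
      ∑ i : ZMod n, c (w.getD i.val 0) := by
    apply Finset.sum_congr rfl
    intro i _
    rw [hstep]
  rw [h7]
  refine Finset.sum_bij' (fun i _ => i.val) (fun k _ => (k : ZMod n)) ?_ ?_ ?_ ?_ ?_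
  · intro i _
    exact Finset.mem_range.mpr (ZMod.val_lt i)
  · intro k _
    exact Finset.mem_univ _
  · intro i _
    exact ZMod.natCast_zmod_val i
  · intro k hk
    exact ZMod.val_natCast_of_lt (Finset.mem_range.mp hk)
  · intro i _
    rfl

theorem Covers.append {n g r : ℕ} {a v : ZMod n} {C : Coord n g r a v} {w₁ w₂ : List (ZMod n)}
    {K₁ K₂ : ℕ} (h₁ : Covers C w₁ K₁) (h₂ : Covers C w₂ K₂) : Covers C (w₁ ++ w₂) (K₁ + K₂) := by
  obtain ⟨h1, h1'⟩ := h₁
  obtain ⟨h2, h2'⟩ := h₂
  refine ⟨?_, ?_⟩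
  · rw [List.sum_append, map_add, h1, h2]
    push_cast
    rfl
  · rintro x ⟨k, hk, hx⟩
    by_cases hK : k < K₁
    · obtain ⟨j, hj, hjx⟩ := h1' x ⟨k, hK, hx⟩
      refine ⟨j, ?_, ?_⟩
      · rw [List.length_append]
        omega
      · rw [List.take_append_of_le_length (by omega), hjx]
    · have h3 : C.q (x - w₁.sum) = ((k - K₁ : ℕ) : ZMod g) := by
        rw [map_sub, hx, h1, Nat.cast_sub (by omega)]
      obtain ⟨j, hj, hjx⟩ := h2' (x - w₁.sum) ⟨k - K₁, by omega, h3⟩
      refine ⟨w₁.length + j, ?_, ?_⟩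
      · rw [List.length_append]
        omega
      · rw [List.take_length_add_append, List.sum_append, hjx]
        ring

/-- a closed word of length `n` covering all classes is a tour -/
theorem tour_of_covers {n g r : ℕ} [NeZero n] {a v : ZMod n} (C : Coord n g r a v) (c : ZMod n → ℝ)
    (w : List (ZMod n)) (hl : w.length = n) (hs : w.sum = 0) (hw : Covers C w g) :
    ∃ f : ZMod n ≃ ZMod n, tourCost c f = (w.map c).sum := by
  have hg := C.hg
  have : NeZero g := ⟨by omega⟩
  apply tour_of_word c w hl hs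
  intro x
  obtain ⟨j, hj, hjx⟩ := hw.2 x ⟨(C.q x).val, ZMod.val_lt _, (ZMod.natCast_zmod_val _).symm⟩
  exact ⟨j, by omega, hjx⟩

end Pool.CTS
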