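import Pool.Agent.CTS.Defs

/-!
# CTS/Bd: length and winding of the quotient tour
-/

open Finset

namespace Pool.CTS

/-- Height of `p` above the boundary between `j` and `j + 1`. -/
private def bdHt {g : ℕ} (j p : ZMod g) : ℤ := ((p - (j + 1)).val : ℤ)

section
variable {g : ℕ} [NeZero g]

omit [NeZero g] in
private lemma bd_negone (hg : 2 ≤ g) : (-1 : ZMod g) = ((g - 1 : ℕ) : ZMod g) := by
  rw [Nat.cast_sub (by omega)]
  simp

omit [NeZero g] in
private lemma bdHt_top (hg : 2 ≤ g) (j : ZMod g) : bdHt j j = g - 1 := by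
  unfold bdHt
  have h1 : j - (j + 1) = ((g - 1 : ℕ) : ZMod g) := by
    rw [← bd_negone hg]; ring
  rw [h1, ZMod.val_natCast_of_lt (by omega), Nat.cast_sub (by omega)]
  simp

omit [NeZero g] in
private lemma bdHt_bot (j : ZMod g) : bdHt j (j + 1) = 0 := by
  unfold bdHt
  simp

private lemma bdHt_succ (hg : 2 ≤ g) {j p : ZMod g} (hp : p ≠ j) :
    bdHt j (p + 1) = bdHt j p + 1 := by
  unfold bdHt
  have h1 : (1 : ZMod g).val = 1 := by
    have : ((1 : ℕ) : ZMod g).val = 1 := ZMod.val_natCast_of_lt (by omega)
    simpa using this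
  have h2 : p + 1 - (j + 1) = (p - (j + 1)) + 1 := by ring
  have h3 : (p - (j + 1)).val < g := ZMod.val_lt _
  have h4 : (p - (j + 1)).val ≠ g - 1 := by
    intro h
    apply hp
    have h5 : p - (j + 1) = -1 := by
      rw [bd_negone hg, ← h, ZMod.natCast_zmod_val]
    have h6 : p = j + 1 + -1 := by rw [← h5]; ring
    rw [h6]; ring
  rw [h2, ZMod.val_add_of_lt (by rw [h1]; omega), h1]
  push_cast
  ring

private lemma bdHt_inj {j p p' : ZMod g} (h : bdHt j p = bdHt j p') : p = p' := by
  unfold bdHt at h
  have h1 : (p - (j + 1)).val = (p' - (j + 1)).val := by exact_mod_cast h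
  have h2 := ZMod.val_injective g h1
  simpa using h2

private lemma bd_sum (hg : 2 ≤ g) (j : ZMod g) (l : List ℤ) (hl : ∀ e ∈ l, e = 1 ∨ e = -1) :
    ∀ p : ZMod g, l.sum = bdHt j (p + (l.sum : ℤ)) - bdHt j p + g * crossNet j p l := by
  induction l with
  | nil => intro p; simp [crossNet]
  | cons e l ih =>
    intro p
    have ih' := ih (fun e he => hl e (List.mem_cons_of_mem _ he)) (p + (e : ZMod g))
    have hp : p + (((e :: l).sum : ℤ) : ZMod g) = p + (e : ZMod g) + ((l.sum : ℤ) : ZMod g) := by
      rw [List.sum_cons]; push_cast; ring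
    rw [hp, List.sum_cons]
    simp only [crossNet]
    have hstep : (e : ℤ) = bdHt j (p + (e : ZMod g)) - bdHt j p +
        g * (if e = 1 then (if p = j then 1 else 0) else (if p = j + 1 then -1 else 0)) := by
      rcases hl e List.mem_cons_self with rfl | rfl
      · rw [if_pos rfl]
        by_cases h : p = j
        · subst h
          rw [if_pos rfl]
          have h1 := bdHt_top hg p
          have h2 := bdHt_bot p
          push_cast
          rw [h1, h2]
          ring
        · rw [if_neg h]
          have h1 := bdHt_succ hg h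
          push_cast
          rw [h1]
          ring
      · rw [if_neg (by norm_num)]
        by_cases h : p = j + 1
        · subst h
          rw [if_pos rfl]
          have h1 := bdHt_top hg j
          have h2 := bdHt_bot j
          have h3 : j + 1 + ((-1 : ℤ) : ZMod g) = j := by push_cast; ring
          rw [h3, h1, h2]
          ring
        · rw [if_neg h]
          have h3 : p + ((-1 : ℤ) : ZMod g) ≠ j := by
            intro h4
            apply h
            rw [← h4]; push_cast; ring
          have h1 := bdHt_succ hg h3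
          have h5 : p + ((-1 : ℤ) : ZMod g) + 1 = p := by push_cast; ring
          rw [h5] at h1
          linarith
    rw [mul_add]
    linarith

private lemma bd_count (l : List ℤ) : ∀ p : ZMod g, ∑ j, crossCount j p l = l.length := by
  induction l with
  | nil => intro p; simp [crossCount]
  | cons e l ih =>
    intro p
    simp only [crossCount, Finset.sum_add_distrib, ih, List.length_cons]
    have h1 : ∑ j : ZMod g, (if e = 1 then (if p = j then 1 else 0)
        else (if p = j + 1 then 1 else 0) : ℕ) = 1 := by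
      by_cases he : e = 1
      · simp [he]
      · simp only [he, if_false]
        have h2 : ∀ j : ZMod g, (if p = j + 1 then 1 else 0 : ℕ) = if p - 1 = j then 1 else 0 := by
          intro j
          congr 1
          exact propext ⟨fun h => by rw [h]; ring, fun h => by rw [← h]; ring⟩
        simp [h2]
    rw [h1, add_comm]

omit [NeZero g] in
private lemma bd_net (j : ZMod g) (l : List ℤ) : ∀ p : ZMod g,
    |crossNet j p l| ≤ crossCount j p l ∧ Even (crossNet j p l - crossCount j p l) := by
  induction l with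
  | nil => intro p; simp [crossNet, crossCount]
  | cons e l ih =>
    intro p
    obtain ⟨h1, h2⟩ := ih (p + (e : ZMod g))
    simp only [crossNet, crossCount]
    set a : ℤ := (if e = 1 then (if p = j then 1 else 0) else (if p = j + 1 then -1 else 0)) with ha
    set b : ℕ := (if e = 1 then (if p = j then 1 else 0) else (if p = j + 1 then 1 else 0)) with hb
    have h3 : |a| ≤ b ∧ Even (a - b) := by
      rw [ha, hb]
      split_ifs <;> norm_num
    push_cast
    refine ⟨(abs_add_le _ _).trans (add_le_add h3.1 h1), ?_⟩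
    have h4 : a + crossNet j (p + (e : ZMod g)) l - (b + crossCount j (p + (e : ZMod g)) l) =
        (a - b) + (crossNet j (p + (e : ZMod g)) l - crossCount j (p + (e : ZMod g)) l) := by ring
    rw [h4]
    exact h3.2.add h2

private lemma bd_stay (hg : 2 ≤ g) (j j' : ZMod g) (l : List ℤ) (hl : ∀ e ∈ l, e = 1 ∨ e = -1) :
    ∀ p : ZMod g, crossCount j p l = 0 → crossCount j' p l = 0 → bdHt j p ≤ bdHt j j' →
      bdHt j (p + (l.sum : ℤ)) ≤ bdHt j j' := by
  induction l with
  | nil => intro p _ _ h; simpa using h
  | cons e l ih =>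
    intro p h1 h2 h3
    simp only [crossCount, Nat.add_eq_zero_iff] at h1 h2
    have hp : p + (((e :: l).sum : ℤ) : ZMod g) = p + (e : ZMod g) + ((l.sum : ℤ) : ZMod g) := by
      rw [List.sum_cons]; push_cast; ring
    rw [hp]
    refine ih (fun e he => hl e (List.mem_cons_of_mem _ he)) _ h1.2 h2.2 ?_
    rcases hl e List.mem_cons_self with rfl | rfl
    · have hpj : p ≠ j := by
        intro h; have := h1.1; simp [h] at this
      have hpj' : p ≠ j' := by
        intro h; have := h2.1; simp [h] at this
      have h4 := bdHt_succ hg hpj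
      have h5 : bdHt j p ≠ bdHt j j' := fun h => hpj' (bdHt_inj h)
      push_cast
      rw [h4]
      omega
    · have hpj : p ≠ j + 1 := by
        intro h; have := h1.1; simp [h] at this
      have h3' : p + ((-1 : ℤ) : ZMod g) ≠ j := by
        intro h4
        apply hpj
        rw [← h4]; push_cast; ring
      have h4 := bdHt_succ hg h3'
      have h5 : p + ((-1 : ℤ) : ZMod g) + 1 = p := by push_cast; ring
      rw [h5] at h4
      omega

end

section
variable {V : Type} [Fintype V] (g : ℕ) [NeZero g]

private lemma bd_main (hg : 2 ≤ g) (τ : Equiv.Perm V)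
    (htrans : ∀ S : Set V, S.Nonempty → (∀ x ∈ S, τ x ∈ S) → S = Set.univ) (q : V → ZMod g)
    (hq : Function.Surjective q) (l : V → List ℤ) (hl : ∀ x, ∀ e ∈ l x, e = 1 ∨ e = -1)
    (hstep : ∀ x, q (τ x) = q x + (((l x).sum : ℤ) : ZMod g)) :
    2 * (g - 1) ≤ ∑ x, (l x).length ∨
      (g ≤ ∑ x, (l x).length ∧ ∀ j, 1 ≤ ∑ x, crossCount j (q x) (l x)) := by
  classical
  set Cc : ZMod g → ℕ := fun j => ∑ x, crossCount j (q x) (l x) with hCc
  have htot : ∑ x, (l x).length = ∑ j, Cc j := by
    rw [hCc]
    simp only
    rw [Finset.sum_comm]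
    exact Finset.sum_congr rfl fun x _ => (bd_count (l x) (q x)).symm
  have hnet : ∀ j, ∑ x, (l x).sum = g * ∑ x, crossNet j (q x) (l x) := by
    intro j
    have h1 : ∀ x, (l x).sum = bdHt j (q (τ x)) - bdHt j (q x) + g * crossNet j (q x) (l x) := by
      intro x
      rw [hstep x]
      exact bd_sum hg j (l x) (hl x) (q x)
    rw [Finset.sum_congr rfl fun x _ => h1 x, Finset.sum_add_distrib, Finset.sum_sub_distrib,
      Equiv.sum_comp τ (fun x => bdHt j (q x)), sub_self, zero_add, ← Finset.mul_sum]
  have hg0 : (g : ℤ) ≠ 0 := by exact_mod_cast (NeZero.ne g)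
  have hindep : ∀ j j', ∑ x, crossNet j (q x) (l x) = ∑ x, crossNet j' (q x) (l x) := by
    intro j j'
    have h1 := (hnet j).symm.trans (hnet j')
    exact mul_left_cancel₀ hg0 h1
  have hpar : ∀ j, |∑ x, crossNet j (q x) (l x)| ≤ Cc j ∧
      Even (∑ x, crossNet j (q x) (l x) - Cc j) := by
    intro j
    constructor
    · refine (Finset.abs_sum_le_sum_abs _ _).trans ?_
      rw [hCc]
      push_cast
      exact Finset.sum_le_sum fun x _ => (bd_net j (l x) (q x)).1
    · rw [hCc]
      push_cast
      rw [← Finset.sum_sub_distrib]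
      exact Finset.even_sum _ fun x _ => (bd_net j (l x) (q x)).2
  by_cases hz : ∃ j, Cc j = 0
  · left
    obtain ⟨j, hj⟩ := hz
    have hw : ∀ j', ∑ x, crossNet j' (q x) (l x) = 0 := by
      intro j'
      rw [hindep j' j]
      have := (hpar j).1
      rw [hj] at this
      have h2 : |∑ x, crossNet j (q x) (l x)| ≤ 0 := by exact_mod_cast this
      exact abs_nonpos_iff.mp h2
    have hne : ∀ j', j' ≠ j → Cc j' ≠ 0 := by
      intro j' hjj' h0
      have hS := htrans {x | bdHt j (q x) ≤ bdHt j j'} (by
        obtain ⟨x, hx⟩ := hq j'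
        exact ⟨x, by simp [hx]⟩) (by
        intro x hx
        simp only [Set.mem_ofPred_eq] at hx ⊢
        rw [hstep x]
        refine bd_stay hg j j' (l x) (hl x) (q x) ?_ ?_ hx
        · exact (Finset.sum_eq_zero_iff.mp hj) x (Finset.mem_univ x)
        · exact (Finset.sum_eq_zero_iff.mp h0) x (Finset.mem_univ x))
      obtain ⟨x, hx⟩ := hq j
      have hxS : x ∈ {x | bdHt j (q x) ≤ bdHt j j'} := by rw [hS]; trivial
      simp only [Set.mem_ofPred_eq, hx] at hxS
      have h1 := bdHt_top hg j
      have h2 : bdHt j j' < g := by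
        unfold bdHt
        exact_mod_cast ZMod.val_lt _
      have h3 : bdHt j j' = bdHt j j := by omega
      exact hjj' (bdHt_inj h3)
    have h2 : ∀ j' ∈ (Finset.univ.erase j : Finset (ZMod g)), 2 ≤ Cc j' := by
      intro j' hj'
      have h3 := hne j' (Finset.ne_of_mem_erase hj')
      have h4 := (hpar j').2
      rw [hw j', zero_sub, even_neg] at h4
      have h5 : Even (Cc j') := by exact_mod_cast h4
      obtain ⟨k, hk⟩ := h5
      omega
    rw [htot]
    calc 2 * (g - 1) = ∑ j' ∈ (Finset.univ.erase j : Finset (ZMod g)), 2 := by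
          rw [Finset.sum_const, Finset.card_erase_of_mem (Finset.mem_univ j), Finset.card_univ,
            ZMod.card, smul_eq_mul]
          ring
      _ ≤ ∑ j' ∈ (Finset.univ.erase j : Finset (ZMod g)), Cc j' := Finset.sum_le_sum h2
      _ ≤ ∑ j', Cc j' := Finset.sum_le_sum_of_subset (Finset.subset_univ _)
  · right
    push Not at hz
    have h1 : ∀ j, 1 ≤ Cc j := fun j => Nat.one_le_iff_ne_zero.mpr (hz j)
    refine ⟨?_, h1⟩
    rw [htot]
    calc g = ∑ j : ZMod g, 1 := by simp [ZMod.card]
      _ ≤ ∑ j, Cc j := Finset.sum_le_sum fun j _ => h1 j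

end

theorem length_ge {V : Type} [Fintype V] (g : ℕ) [NeZero g] (hg : 2 ≤ g) (τ : Equiv.Perm V)
    (htrans : ∀ S : Set V, S.Nonempty → (∀ x ∈ S, τ x ∈ S) → S = Set.univ) (q : V → ZMod g)
    (hq : Function.Surjective q) (l : V → List ℤ) (hl : ∀ x, ∀ e ∈ l x, e = 1 ∨ e = -1)
    (hstep : ∀ x, q (τ x) = q x + (((l x).sum : ℤ) : ZMod g)) :
    g ≤ ∑ x, (l x).length := by
  rcases bd_main g hg τ htrans q hq l hl hstep with h | h
  · omega
  · exact h.1

theorem winding {V : Type} [Fintype V] (g : ℕ) [NeZero g] (hg : 2 ≤ g) (τ : Equiv.Perm V)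
    (htrans : ∀ S : Set V, S.Nonempty → (∀ x ∈ S, τ x ∈ S) → S = Set.univ) (q : V → ZMod g)
    (hq : Function.Surjective q) (l : V → List ℤ) (hl : ∀ x, ∀ e ∈ l x, e = 1 ∨ e = -1)
    (hstep : ∀ x, q (τ x) = q x + (((l x).sum : ℤ) : ZMod g))
    (s : V → ℤ) (hs : ∀ x, s x = 1 ∨ s x = -1)
    (hbal : ∀ h : ZMod g → ℤ, ∑ x, s x * (h (q (τ x)) - h (q x)) = 0) :
    2 * (g - 1) ≤ ∑ x, (l x).length ∨
      (∑ x, s x * (l x).sum = g ∨ ∑ x, s x * (l x).sum = -g) := by
  classical
  rcases bd_main g hg τ htrans q hq l hl hstep with h | ⟨-, h1⟩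
  · exact Or.inl h
  · by_cases hlt : 2 * (g - 1) ≤ ∑ x, (l x).length
    · exact Or.inl hlt
    · right
      have hex : ∃ j, ∑ x, crossCount j (q x) (l x) = 1 := by
        by_contra hcon
        push Not at hcon
        apply hlt
        have h2 : ∀ j, 2 ≤ ∑ x, crossCount j (q x) (l x) := by
          intro j
          have := h1 j
          have := hcon j
          omega
        calc 2 * (g - 1) ≤ ∑ j : ZMod g, 2 := by
              rw [Finset.sum_const, Finset.card_univ, ZMod.card, smul_eq_mul]
              omega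
          _ ≤ ∑ j, ∑ x, crossCount j (q x) (l x) := Finset.sum_le_sum fun j _ => h2 j
          _ = ∑ x, (l x).length := by
              rw [Finset.sum_comm]
              exact Finset.sum_congr rfl fun x _ => bd_count (l x) (q x)
      obtain ⟨j, hj⟩ := hex
      have h3 : ∑ x, s x * (l x).sum = g * ∑ x, s x * crossNet j (q x) (l x) := by
        have h4 : ∀ x, s x * (l x).sum = s x * (bdHt j (q (τ x)) - bdHt j (q x)) +
            g * (s x * crossNet j (q x) (l x)) := by
          intro x
          have h5 := bd_sum hg j (l x) (hl x) (q x)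
          rw [← hstep x] at h5
          rw [h5]
          ring
        rw [Finset.sum_congr rfl fun x _ => h4 x, Finset.sum_add_distrib,
          hbal (fun p => bdHt j p), zero_add, ← Finset.mul_sum]
      obtain ⟨x0, hx0⟩ : ∃ x0, crossCount j (q x0) (l x0) ≠ 0 := by
        by_contra hcon
        push Not at hcon
        have h0 : ∑ x, crossCount j (q x) (l x) = 0 := Finset.sum_eq_zero fun x _ => hcon x
        omega
      have h5 : crossCount j (q x0) (l x0) + ∑ x ∈ Finset.univ.erase x0,
          crossCount j (q x) (l x) = 1 := by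
        rw [← hj]
        exact Finset.add_sum_erase Finset.univ (fun x => crossCount j (q x) (l x))
          (Finset.mem_univ x0)
      have h6 : crossCount j (q x0) (l x0) = 1 := by omega
      have h7 : ∀ x, x ≠ x0 → crossCount j (q x) (l x) = 0 := by
        intro x hx
        have h8 : ∑ x ∈ Finset.univ.erase x0, crossCount j (q x) (l x) = 0 := by omega
        exact (Finset.sum_eq_zero_iff.mp h8) x (Finset.mem_erase.mpr ⟨hx, Finset.mem_univ x⟩)
      have h8 : ∀ x, x ≠ x0 → crossNet j (q x) (l x) = 0 := by
        intro x hx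
        have h9 := (bd_net j (l x) (q x)).1
        rw [h7 x hx] at h9
        exact abs_nonpos_iff.mp (by exact_mod_cast h9)
      have h9 : crossNet j (q x0) (l x0) = 1 ∨ crossNet j (q x0) (l x0) = -1 := by
        have h10 := bd_net j (l x0) (q x0)
        rw [h6] at h10
        obtain ⟨h11, k, hk⟩ := h10
        rw [abs_le] at h11
        push_cast at h11 hk
        omega
      have h10 : ∑ x, s x * crossNet j (q x) (l x) = s x0 * crossNet j (q x0) (l x0) :=
        Finset.sum_eq_single x0 (fun x _ hx => by rw [h8 x hx, mul_zero])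
          (fun h => absurd (Finset.mem_univ x0) h)
      rw [h3, h10]
      rcases hs x0 with h11 | h11 <;> rcases h9 with h12 | h12 <;> rw [h11, h12]
      · left; ring
      · right; ring
      · right; ring
      · left; ring

end Pool.CTS
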