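import Pool.Agent.CTS.Defs

/-! CTS module Blk: single and pair blocks  (helper69) -/

open Finset

namespace Pool.CTS

private lemma Blk_q_line {n g r : ℕ} {a v : ZMod n} (C : Coord n g r a v) (b : ZMod n)
    (hb : OnLine a v b) : C.q b = 1 := by
  obtain ⟨k, rfl⟩ := hb
  rw [map_add, map_zsmul, C.qa, C.qv, smul_zero, add_zero]

private lemma Blk_q_ea {n g r : ℕ} {a v : ZMod n} (C : Coord n g r a v) (e : ℤ) :
    C.q (e • a) = 0 := by
  rw [map_zsmul, C.qa, smul_zero]

private lemma Blk_ra {n g r : ℕ} {a v : ZMod n} (C : Coord n g r a v) (e : ℤ) :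
    r • (e • a) = 0 := by
  rw [smul_comm, C.ra, smul_zero]

private lemma Blk_ker {n g r : ℕ} {a v : ZMod n} (C : Coord n g r a v) (e : ℤ)
    (he : e = 1 ∨ e = -1) (x : ZMod n) (hx : C.q x = 0) : ∃ m : ℕ, m < r ∧ x = m • (e • a) := by
  rcases he with rfl | rfl
  · obtain ⟨k, hk, h⟩ := C.ker x hx
    exact ⟨k, hk, by rw [one_smul]; exact h⟩
  · obtain ⟨k, hk, h⟩ := C.ker (-x) (by rw [map_neg, hx, neg_zero])
    refine ⟨k, hk, ?_⟩
    rw [neg_smul, one_smul, smul_neg, ← h, neg_neg]

private lemma Blk_pre {n : ℕ} (w u rest : List (ZMod n)) (h : w = u ++ rest) (hr : rest ≠ []) :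
    ∃ j < w.length, (w.take j).sum = u.sum := by
  refine ⟨u.length, ?_, ?_⟩
  · rw [h, List.length_append]
    have : 0 < rest.length := List.length_pos_iff.mpr hr
    omega
  · rw [h, List.take_left']
    rfl

/-- one class, walked in direction `e • a` (`e = ±1`), then the chord `b` -/
theorem single_block {n g r : ℕ} {a v : ZMod n} (C : Coord n g r a v) (e : ℤ) (he : e = 1 ∨ e = -1)
    (b : ZMod n) (hb : OnLine a v b) :
    Covers C (List.replicate (r - 1) (e • a) ++ [b]) 1 ∧
      (List.replicate (r - 1) (e • a) ++ [b]).length = r ∧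
      (List.replicate (r - 1) (e • a) ++ [b]).sum = b - e • a := by
  have hr := C.hr
  have hra := Blk_ra C e
  have hsum : (List.replicate (r - 1) (e • a) ++ [b]).sum = b - e • a := by
    rw [List.sum_append, List.sum_replicate, List.sum_singleton]
    have h1 : (r - 1) • (e • a) + e • a = 0 := by
      rw [← succ_nsmul]
      have : r - 1 + 1 = r := by omega
      rw [this, hra]
    have h2 : (r - 1) • (e • a) = - (e • a) := eq_neg_of_add_eq_zero_left h1
    rw [h2]
    abel
  refine ⟨⟨?_, ?_⟩, ?_, hsum⟩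
  · rw [hsum, map_sub, Blk_q_line C b hb, Blk_q_ea C e]
    simp
  · rintro x ⟨k, hk, hx⟩
    have hk0 : k = 0 := by omega
    rw [hk0, Nat.cast_zero] at hx
    obtain ⟨m, hm, hxm⟩ := Blk_ker C e he x hx
    obtain ⟨j, hj, hj2⟩ := Blk_pre (List.replicate (r - 1) (e • a) ++ [b])
      (List.replicate m (e • a)) (List.replicate (r - 1 - m) (e • a) ++ [b])
      (by
        rw [← List.append_assoc, ← List.replicate_add]
        have : m + (r - 1 - m) = r - 1 := by omega
        rw [this]) (by simp)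
    refine ⟨j, hj, ?_⟩
    rw [hj2, List.sum_replicate, hxm]
  · rw [List.length_append, List.length_replicate, List.length_singleton]
    omega

/-- two classes with the chords `x` (up), `z` (down), `y` (up), then the chord `b` -/
theorem pair_block {n g r : ℕ} {a v : ZMod n} (C : Coord n g r a v) (e : ℤ) (he : e = 1 ∨ e = -1)
    (x y z b : ZMod n) (hx : OnLine a v x) (hy : OnLine a v y) (hz : OnLine a v z)
    (hb : OnLine a v b) (hxz : x - z ≠ (2 * e) • a) (hyz : y - z ≠ (2 * e) • a) :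
    ∃ w : List (ZMod n), Covers C w 2 ∧ w.length = 2 * r ∧ w.sum = x + y - z + b - (4 * e) • a ∧
      ∀ c : ZMod n → ℝ, (∀ x, c (-x) = c x) →
        (w.map c).sum = (2 * (r : ℝ) - 4) * c a + c x + c y + c z + c b := by
  have hr := C.hr
  have hra := Blk_ra C e
  have hqx := Blk_q_line C x hx
  have hqy := Blk_q_line C y hy
  have hqz := Blk_q_line C z hz
  have hqb := Blk_q_line C b hb
  have hqA := Blk_q_ea C e
  have h2A : (2 * e) • a = (2 : ℤ) • (e • a) := mul_smul _ _ _
  have h4A : (4 * e) • a = (4 : ℤ) • (e • a) := mul_smul _ _ _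
  set A : ZMod n := e • a with hA
  rw [h2A] at hxz hyz
  have hr1 : (r - 1) • A = -A := by
    have h1 : (r - 1) • A + A = 0 := by
      rw [← succ_nsmul]
      have : r - 1 + 1 = r := by omega
      rw [this, hra]
    exact eq_neg_of_add_eq_zero_left h1
  -- choose p
  obtain ⟨p, hp, hpe⟩ := Blk_ker C e he (y - z - (3 : ℤ) • A)
    (by rw [map_sub, map_sub, map_zsmul, hqy, hqz, hqA]; simp)
  obtain ⟨d, hd, hde⟩ := Blk_ker C e he (A + z - x)
    (by rw [map_sub, map_add, hqx, hqz, hqA]; simp)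
  rw [← hA] at hpe hde
  have hp1 : p ≠ r - 1 := by
    rintro rfl
    rw [hr1] at hpe
    apply hyz
    have : y - z = (3 : ℤ) • A + -A := by rw [← hpe]; abel
    rw [this]; abel
  have hd1 : d ≠ r - 1 := by
    rintro rfl
    rw [hr1] at hde
    apply hxz
    have : x - z = A + A := by
      have h : A + z - x + A = 0 := by rw [hde]; abel
      have h' : x - z = (A + A) - (A + z - x + A) := by abel
      rw [h', h, sub_zero]
    rw [this]; abel
  obtain ⟨p2, hp2⟩ : ∃ p2, p + p2 + 2 = r := ⟨r - 2 - p, by omega⟩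
  obtain ⟨d2, hd2⟩ : ∃ d2, d + d2 + 2 = r := ⟨r - 2 - d, by omega⟩
  set R := fun k : ℕ => List.replicate k A with hR
  have hRs : ∀ k, (R k).sum = k • A := fun k => by simp [hR]
  have hRadd : ∀ k l, R (k + l) = R k ++ R l := fun k l => List.replicate_add k l A
  have hRlen : ∀ k, (R k).length = k := fun k => by simp [hR]
  set w : List (ZMod n) :=
    R p ++ ([x] ++ (R d ++ ([-z] ++ (R p2 ++ ([y] ++ (R d2 ++ [b])))))) with hw
  have hzA : ∀ k : ℕ, ∀ B : ZMod n, k • B = (k : ℤ) • B := fun k B => (natCast_zsmul B k).symm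
  have hpZ : y = z + (3 : ℤ) • A + (p : ℤ) • A := by
    have := hpe
    rw [hzA] at this
    rw [← this]; abel
  have hdZ : (d : ℤ) • A = A + z - x := by rw [← hzA, hde]
  have hrZ : (r : ℤ) • A = 0 := by rw [← hzA, hra]
  have hp2Z : (p2 : ℤ) • A = -((p : ℤ) • A) - (2 : ℤ) • A := by
    have h : ((p + p2 + 2 : ℕ) : ℤ) • A = 0 := by rw [hp2]; exact hrZ
    push_cast at h
    rw [add_smul, add_smul] at h
    have h' : (p2 : ℤ) • A = ((p : ℤ) • A + (p2 : ℤ) • A + (2 : ℤ) • A) -
        ((p : ℤ) • A) - (2 : ℤ) • A := by abel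
    rw [h', h]; abel
  have hd2Z : (d2 : ℤ) • A = -((d : ℤ) • A) - (2 : ℤ) • A := by
    have h : ((d + d2 + 2 : ℕ) : ℤ) • A = 0 := by rw [hd2]; exact hrZ
    push_cast at h
    rw [add_smul, add_smul] at h
    have h' : (d2 : ℤ) • A = ((d : ℤ) • A + (d2 : ℤ) • A + (2 : ℤ) • A) -
        ((d : ℤ) • A) - (2 : ℤ) • A := by abel
    rw [h', h]; abel
  have hwsum : w.sum = x + y - z + b - (4 : ℤ) • A := by
    simp only [hw, List.sum_append, List.sum_singleton, hRs, hzA]
    rw [hp2Z, hd2Z]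
    abel
  refine ⟨w, ⟨?_, ?_⟩, ?_, ?_, ?_⟩
  · rw [hwsum, map_sub, map_add, map_sub, map_add, map_zsmul, hqx, hqy, hqz, hqb, hqA]
    simp
    norm_num
  · rintro t ⟨k, hk, ht⟩
    have hk2 : k = 0 ∨ k = 1 := by omega
    rcases hk2 with rfl | rfl
    · rw [Nat.cast_zero] at ht
      obtain ⟨m, hm, htm⟩ := Blk_ker C e he t ht
      rw [← hA] at htm
      by_cases hmp : m ≤ p
      · obtain ⟨p', hp'⟩ : ∃ p', p = m + p' := ⟨p - m, by omega⟩
        obtain ⟨j, hj, hj2⟩ := Blk_pre w (R m)
          (R p' ++ ([x] ++ (R d ++ ([-z] ++ (R p2 ++ ([y] ++ (R d2 ++ [b])))))))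
          (by rw [hw, hp', hRadd]; simp only [List.append_assoc]) (by simp)
        exact ⟨j, hj, by rw [hj2, hRs, htm]⟩
      · obtain ⟨m', hm'⟩ : ∃ m', m = p + 1 + m' := ⟨m - p - 1, by omega⟩
        obtain ⟨p', hp'⟩ : ∃ p', p2 = m' + p' := ⟨p2 - m', by omega⟩
        obtain ⟨j, hj, hj2⟩ := Blk_pre w (R p ++ ([x] ++ (R d ++ ([-z] ++ R m'))))
          (R p' ++ ([y] ++ (R d2 ++ [b])))
          (by rw [hw, hp', hRadd]; simp only [List.append_assoc]) (by simp)
        refine ⟨j, hj, ?_⟩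
        rw [hj2, htm, hm']
        simp only [List.sum_append, List.sum_singleton, hRs]
        rw [add_smul, add_smul, one_smul, hzA d, hdZ]
        abel
    · rw [Nat.cast_one] at ht
      obtain ⟨m, hm, htm⟩ := Blk_ker C e he (t - ((p : ℤ) • A + x))
        (by rw [map_sub, map_add, map_zsmul, hqA, hqx, ht]; simp)
      rw [← hA] at htm
      have htm' : t = (p : ℤ) • A + x + m • A := by rw [← htm]; abel
      by_cases hmd : m ≤ d
      · obtain ⟨d', hd'⟩ : ∃ d', d = m + d' := ⟨d - m, by omega⟩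
        obtain ⟨j, hj, hj2⟩ := Blk_pre w (R p ++ ([x] ++ R m))
          (R d' ++ ([-z] ++ (R p2 ++ ([y] ++ (R d2 ++ [b])))))
          (by rw [hw, hd', hRadd]; simp only [List.append_assoc]) (by simp)
        refine ⟨j, hj, ?_⟩
        rw [hj2, htm']
        simp only [List.sum_append, List.sum_singleton, hRs]
        rw [hzA p]
        abel
      · obtain ⟨m', hm'⟩ : ∃ m', m = d + 1 + m' := ⟨m - d - 1, by omega⟩
        obtain ⟨d', hd'⟩ : ∃ d', d2 = m' + d' := ⟨d2 - m', by omega⟩
        obtain ⟨j, hj, hj2⟩ := Blk_pre w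
          (R p ++ ([x] ++ (R d ++ ([-z] ++ (R p2 ++ ([y] ++ R m'))))))
          (R d' ++ [b])
          (by rw [hw, hd', hRadd]; simp only [List.append_assoc]) (by simp)
        refine ⟨j, hj, ?_⟩
        rw [hj2, htm', hm']
        simp only [List.sum_append, List.sum_singleton, hRs]
        rw [add_smul, add_smul, one_smul, hzA d, hzA p, hzA p2, hp2Z, hdZ, hpZ]
        abel
  · simp only [hw, List.length_append, List.length_singleton, hRlen]
    omega
  · rw [hwsum, h4A]
  · intro c hc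
    have hcA : c A = c a := by
      rcases he with h | h
      · rw [hA, h, one_smul]
      · rw [hA, h, neg_smul, one_smul, hc]
    have hRm : ∀ k, ((R k).map c).sum = (k : ℝ) * c a := fun k => by
      simp [hR, hcA]
    simp only [hw, List.map_append, List.sum_append, List.map_singleton, List.sum_singleton, hRm,
      hc]
    have hpr : ((p : ℝ)) + p2 + 2 = r := by exact_mod_cast hp2
    have hdr : ((d : ℝ)) + d2 + 2 = r := by exact_mod_cast hd2
    have hp3 : (p2 : ℝ) = r - 2 - p := by linarith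
    have hd3 : (d2 : ℝ) = r - 2 - d := by linarith
    rw [hp3, hd3]
    ring

end Pool.CTS
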