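import Pool.Agent.CTS.Defs

set_option autoImplicit false

/-!
# CTS/Col: a sign function alternating under two fixed-point-free involutions
-/

open Finset

namespace Pool.CTS

theorem exists_coloring {E : Type*} (f h : E → E) (hf : ∀ e, f (f e) = e) (hh : ∀ e, h (h e) = e)
    (hf' : ∀ e, f e ≠ e) (hh' : ∀ e, h e ≠ e) :
    ∃ o : E → ℤ, (∀ e, o e = 1 ∨ o e = -1) ∧ (∀ e, o (f e) = - o e) ∧ (∀ e, o (h e) = - o e) := by
  classical
  let F : Equiv.Perm E := ⟨f, f, hf, hf⟩
  let H : Equiv.Perm E := ⟨h, h, hh, hh⟩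
  let ρ : Equiv.Perm E := H * F
  have hFF : F⁻¹ = F := rfl
  have hHH : H⁻¹ = H := rfl
  have h1 : F * ρ * F⁻¹ = ρ⁻¹ := by
    rw [hFF]
    have h2 : ρ⁻¹ = F * H := by
      show (H * F)⁻¹ = F * H
      rw [mul_inv_rev, hFF, hHH]
    rw [h2]
    ext e
    show f (h (f (f e))) = f (h e)
    rw [hf]
  have hconj : ∀ k : ℤ, F * ρ ^ k = ρ ^ (-k) * F := by
    intro k
    have h2 : F * ρ ^ k * F⁻¹ = ρ ^ (-k) := by
      rw [← conj_zpow, h1, inv_zpow, zpow_neg]
    rw [← h2]
    group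
  have hconj' : ∀ (k : ℤ) (e : E), f ((ρ ^ k) e) = (ρ ^ (-k)) (f e) := by
    intro k e
    exact congrArg (fun g : Equiv.Perm E => g e) (hconj k)
  have hne : ∀ e (m : ℤ), (ρ ^ m) e ≠ f e := by
    intro e m hm
    rcases Int.even_or_odd' m with ⟨q, rfl | rfl⟩
    · apply hf' ((ρ ^ q) e)
      rw [hconj', ← hm, ← Equiv.Perm.mul_apply, ← zpow_add]
      congr 2
      ring
    · apply hh' (f ((ρ ^ q) e))
      have h3 : f ((ρ ^ q) e) = (ρ ^ (q + 1)) e := by
        rw [hconj', ← hm, ← Equiv.Perm.mul_apply, ← zpow_add]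
        congr 2
        ring
      have h4 : (ρ ^ (q + 1)) e = h (f ((ρ ^ q) e)) := by
        rw [add_comm, zpow_add, zpow_one, Equiv.Perm.mul_apply]
        rfl
      rw [← h4, h3]
  let mk : E → Quotient (Equiv.Perm.SameCycle.setoid ρ) := fun e => Quotient.mk _ e
  have hmk : ∀ e, mk e ≠ mk (f e) := by
    intro e he
    have h2 : ρ.SameCycle e (f e) := Quotient.exact he
    obtain ⟨m, hm⟩ := h2
    exact hne e m hm
  have hmk1 : ∀ e, mk (h e) = mk (f e) := by
    intro e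
    apply Quotient.sound
    refine ⟨-1, ?_⟩
    rw [zpow_neg, zpow_one, Equiv.Perm.inv_eq_iff_eq]
    show h e = h (f (f e))
    rw [hf]
  have hmk2 : ∀ e, mk (f (h e)) = mk e := by
    intro e
    apply Quotient.sound
    refine ⟨1, ?_⟩
    rw [zpow_one]
    show h (f (f (h e))) = e
    rw [hf, hh]
  let R : Quotient (Equiv.Perm.SameCycle.setoid ρ) → Quotient (Equiv.Perm.SameCycle.setoid ρ) →
    Prop := WellOrderingRel
  have hR1 : ∀ x y, x ≠ y → R x y → ¬ R y x := fun x y _ h2 h3 => asymm_of WellOrderingRel h2 h3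
  have hR2 : ∀ x y, x ≠ y → ¬ R x y → R y x := by
    intro x y hxy h2
    rcases trichotomous_of WellOrderingRel x y with h3 | h3 | h3
    · exact absurd h3 h2
    · exact absurd h3 hxy
    · exact h3
  refine ⟨fun e => if R (mk e) (mk (f e)) then 1 else -1, fun e => ?_, fun e => ?_, fun e => ?_⟩
  · by_cases h2 : R (mk e) (mk (f e))
    · left; simp only [if_pos h2]
    · right; simp only [if_neg h2]
  · simp only [hf]
    by_cases h2 : R (mk e) (mk (f e))
    · simp only [if_pos h2, if_neg (hR1 _ _ (hmk e) h2)]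
    · simp only [if_neg h2, if_pos (hR2 _ _ (hmk e) h2), neg_neg]
  · simp only [hmk1, hmk2]
    by_cases h2 : R (mk e) (mk (f e))
    · simp only [if_pos h2, if_neg (hR1 _ _ (hmk e) h2)]
    · simp only [if_neg h2, if_pos (hR2 _ _ (hmk e) h2), neg_neg]

end Pool.CTS
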