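import Pool.Agent.CTS.Fin

open Finset

namespace Pool.CTS

/-- The value `n c(a) + min (2 (g - 1) m) (dynamic programme)`. -/
noncomputable def oneClassValue {n : ℕ} [NeZero n] (c : ZMod n → ℝ) (a : ZMod n)
    (L : Finset (ZMod n)) (g : ℕ) (m : ℝ) : WithTop ℝ :=
  ((n * c a : ℝ) : WithTop ℝ) +
    min (((2 * ((g : ℝ) - 1) * m : ℝ)) : WithTop ℝ)
      (((Finset.range g).filter fun i => 2 * i + 3 ≤ g).inf fun i =>
        ((Finset.Icc (-((g : ℤ) + 2 * i)) ((g : ℤ) + 2 * i)).filter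
          fun Γ : ℤ => Even (Γ - (g : ℤ))).inf fun Γ =>
            (Finset.univ : Finset (ZMod n)).inf fun x =>
              D (fun z => c z - c a) L (g + i) x +
                D (fun z => c z - c a) L i (x + Γ • a))

/-- `V` is the optimal value of the circulant travelling salesman problem with cost `c`. -/
def IsOptimalValue {n : ℕ} [NeZero n] (c : ZMod n → ℝ) (V : WithTop ℝ) : Prop :=
  ∃ f₀ : ZMod n ≃ ZMod n, (∀ f, tourCost c f₀ ≤ tourCost c f) ∧
    ((tourCost c f₀ : ℝ) : WithTop ℝ) = V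

theorem main' {n : ℕ} [NeZero n] (hn : 3 ≤ n) (c : ZMod n → ℝ) (hc : ∀ x, c (-x) = c x)
    (a v : ZMod n) (ha : a ≠ 0) (hmin : ∀ x, x ≠ 0 → c a ≤ c x) (g : ℕ) (hg : g = n.gcd a.val)
    (hg2 : 2 ≤ g) (hv : Nat.Coprime g v.val) (m : ℝ)
    (hm : IsLeast {z : ℝ | ∃ b, OnLine a v b ∧ z = c b - c a} m)
    (H : ∀ x, x ≠ 0 → x ≠ a → x ≠ -a →
      Dominated (fun z => c z - c a) a v x ∨ Expensive (fun z => c z - c a) g m a v x)
    (L : Finset (ZMod n)) (hL : ∀ x, x ∈ L ↔ OnLine a v x) :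
    IsOptimalValue c (oneClassValue c a L g m) :=
  main hn c hc a v ha hmin g hg hg2 hv m hm H L hL

theorem Cor_dominated_neg {n : ℕ} (w : ZMod n → ℝ) (hw : ∀ x, w (-x) = w x) (a v x : ZMod n)
    (h : Dominated w a v x) : Dominated w a v (-x) := by
  obtain ⟨l, τ, hl, hp, hτ, hev, hx, hle⟩ := h
  refine ⟨l.map fun p => (-p.1, p.2), -τ, by simpa using hl, ?_, ?_, ?_, ?_, ?_⟩
  · intro p hp'
    rw [List.mem_map] at hp'
    obtain ⟨p', hp', rfl⟩ := hp'
    obtain ⟨h1, h2⟩ := hp p' hp'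
    refine ⟨?_, h2⟩
    rcases h1 with h1 | h1
    · right; simp [h1]
    · left; simp [h1]
  · rw [abs_neg, List.length_map]; exact hτ
  · rw [List.length_map]
    have : -τ - ((l.length : ℤ) - 1) = (τ - ((l.length : ℤ) - 1)) - 2 * τ := by ring
    rw [this]
    exact hev.sub (even_two_mul _)
  · rw [hx, List.map_map]
    have : (List.map ((fun p : ℤ × ZMod n => p.1 • p.2) ∘ fun p : ℤ × ZMod n => (-p.1, p.2)) l).sum
        = -(List.map (fun p : ℤ × ZMod n => p.1 • p.2) l).sum := by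
      clear hx hle hev hτ hp hl
      induction l with
      | nil => simp
      | cons p l ih =>
        simp only [List.map_cons, List.sum_cons, ih, Function.comp, neg_smul]
        abel
    rw [this, neg_smul]
    abel
  · rw [List.map_map, hw]
    exact hle

/-- Arbitrarily many stripes in one class. -/
theorem stripes {n : ℕ} [NeZero n] (hn : 3 ≤ n) (c : ZMod n → ℝ) (hc : ∀ x, c (-x) = c x)
    (a v : ZMod n) (ha : a ≠ 0) (hmin : ∀ x, x ≠ 0 → c a ≤ c x) (g : ℕ) (hg : g = n.gcd a.val)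
    (hg2 : 2 ≤ g) (hv : Nat.Coprime g v.val) (m : ℝ)
    (hm : IsLeast {z : ℝ | ∃ b, OnLine a v b ∧ z = c b - c a} m)
    (H : ∀ x, x ≠ 0 → x ≠ a → x ≠ -a → ¬ OnLine a v x → ¬ OnLine a v (-x) →
      c a + 2 * ((g : ℝ) - 1) * m ≤ c x)
    (L : Finset (ZMod n)) (hL : ∀ x, x ∈ L ↔ OnLine a v x) :
    IsOptimalValue c (oneClassValue c a L g m) := by
  refine main' hn c hc a v ha hmin g hg hg2 hv m hm ?_ L hL
  intro x hx0 hxa hxa'
  by_cases h1 : OnLine a v x
  · left
    refine ⟨[(1, x)], 0, by simp, ?_, by simp, by simp, by simp, by simp⟩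
    intro p hp
    simp only [List.mem_singleton] at hp
    subst hp
    exact ⟨Or.inl rfl, h1⟩
  by_cases h2 : OnLine a v (-x)
  · left
    refine ⟨[(-1, -x)], 0, by simp, ?_, by simp, by simp, by simp, by simp [hc]⟩
    intro p hp
    simp only [List.mem_singleton] at hp
    subst hp
    exact ⟨Or.inr rfl, h2⟩
  right
  obtain ⟨C⟩ := exists_coord a v ha (hg ▸ hg2) (hg ▸ hv)
  rw [← hg] at C
  have : NeZero g := ⟨by omega⟩
  have hker := C.ker (x - ((C.q x).val : ℕ) • v) (by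
    rw [map_sub, map_nsmul, C.qv, nsmul_eq_mul, mul_one, ZMod.natCast_zmod_val, sub_self])
  obtain ⟨k, -, hk⟩ := hker
  refine ⟨((C.q x).val : ℤ), k, ?_, ?_⟩
  · rw [natCast_zsmul, natCast_zsmul, ← hk]; abel
  · have hm0 : 0 ≤ m := by
      obtain ⟨b, hb, hmb⟩ := hm.1
      have hb0 : b ≠ 0 := by
        rintro rfl
        obtain ⟨k, hk⟩ := hb
        have := congrArg C.q hk
        rw [map_zero, map_add, map_zsmul, C.qa, C.qv, smul_zero, add_zero] at this
        have h1 : Fact (1 < g) := ⟨by omega⟩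
        exact zero_ne_one this
      have := hmin b hb0
      rw [hmb]; linarith
    have hlt : ((C.q x).val : ℝ) ≤ (g : ℝ) := by
      exact_mod_cast (ZMod.val_lt (C.q x)).le
    have h := H x hx0 hxa hxa' h1 h2
    have habs : |(((C.q x).val : ℤ) : ℝ)| = ((C.q x).val : ℝ) := by
      rw [Int.cast_natCast, abs_of_nonneg (Nat.cast_nonneg _)]
    rw [habs]
    have : ((g : ℝ) - 2 + ((C.q x).val : ℝ)) * m ≤ (2 * ((g : ℝ) - 1)) * m := by
      apply mul_le_mul_of_nonneg_right _ hm0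
      linarith
    show _ ≤ c x - c a
    linarith

theorem Cor_conv_up (φ : ℕ → ℝ) (a N : ℕ) (ha : 1 ≤ a) (h0 : φ a = 0)
    (hconv : ∀ j, 2 ≤ j → j + 1 ≤ N → 2 * φ j ≤ φ (j - 1) + φ (j + 1)) :
    ∀ j, a + j + 1 ≤ N → φ (a + 1) ≤ φ (a + j + 1) - φ (a + j) ∧
      (j : ℝ) * φ (a + 1) + φ (a + 1) ≤ φ (a + j + 1) := by
  intro j
  induction j with
  | zero =>
    intro _
    simp [h0]
  | succ j ih =>
    intro hj
    obtain ⟨h1, h2⟩ := ih (by omega)
    have h3 := hconv (a + j + 1) (by omega) (by omega)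
    have e1 : a + j + 1 - 1 = a + j := by omega
    rw [e1] at h3
    have e2 : a + (j + 1) + 1 = a + j + 1 + 1 := by omega
    have e3 : a + (j + 1) = a + j + 1 := by omega
    rw [e2, e3]
    constructor
    · linarith
    · push_cast
      linarith

theorem Cor_conv_down (φ : ℕ → ℝ) (a N : ℕ) (ha : a ≤ N) (h0 : φ a = 0)
    (hconv : ∀ j, 2 ≤ j → j + 1 ≤ N → 2 * φ j ≤ φ (j - 1) + φ (j + 1)) :
    ∀ j, j + 2 ≤ a → φ (a - 1) ≤ φ (a - (j + 1)) - φ (a - j) ∧
      (j : ℝ) * φ (a - 1) + φ (a - 1) ≤ φ (a - (j + 1)) := by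
  intro j
  induction j with
  | zero =>
    intro _
    simp [h0]
  | succ j ih =>
    intro hj
    obtain ⟨h1, h2⟩ := ih (by omega)
    have h3 := hconv (a - (j + 1)) (by omega) (by omega)
    have e1 : a - (j + 1) - 1 = a - (j + 1 + 1) := by omega
    have e2 : a - (j + 1) + 1 = a - j := by omega
    rw [e1, e2] at h3
    constructor
    · linarith
    · push_cast
      linarith

theorem Cor_exists_abs {n : ℕ} [NeZero n] (x : ZMod n) (hx : x ≠ 0) :
    ∃ k : ℕ, 1 ≤ k ∧ k ≤ n / 2 ∧ (x = (k : ZMod n) ∨ x = -(k : ZMod n)) := by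
  have hlt := ZMod.val_lt x
  have hpos : x.val ≠ 0 := by
    intro h
    exact hx ((ZMod.val_eq_zero x).1 h)
  by_cases h : x.val ≤ n / 2
  · exact ⟨x.val, by omega, h, Or.inl (ZMod.natCast_zmod_val x).symm⟩
  · refine ⟨n - x.val, by omega, by omega, Or.inr ?_⟩
    rw [Nat.cast_sub hlt.le, ZMod.natCast_self, ZMod.natCast_zmod_val]
    ring

/-- Convex costs. -/
theorem convex {n : ℕ} [NeZero n] (hn : 3 ≤ n) (c : ZMod n → ℝ) (hc : ∀ x, c (-x) = c x)
    (hconv : ∀ j : ℕ, 2 ≤ j → j + 1 ≤ n / 2 →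
      2 * c (j : ZMod n) ≤ c ((j - 1 : ℕ) : ZMod n) + c ((j + 1 : ℕ) : ZMod n))
    (a : ℕ) (ha1 : 1 ≤ a) (ha2 : a ≤ n / 2)
    (hmin : ∀ j : ℕ, 1 ≤ j → j ≤ n / 2 → c (a : ZMod n) ≤ c (j : ZMod n))
    (hg2 : 2 ≤ n.gcd a) (L : Finset (ZMod n))
    (hL : ∀ x, x ∈ L ↔ OnLine (a : ZMod n) 1 x) :
    IsOptimalValue c (oneClassValue c (a : ZMod n) L (n.gcd a)
      (min (c ((a - 1 : ℕ) : ZMod n)) (c ((a + 1 : ℕ) : ZMod n)) - c (a : ZMod n))) := by
  have hval : (a : ZMod n).val = a := ZMod.val_natCast_of_lt (by omega)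
  have ha0 : (a : ZMod n) ≠ 0 := by
    intro h
    rw [h, ZMod.val_zero] at hval
    omega
  have hminx : ∀ x : ZMod n, x ≠ 0 → c (a : ZMod n) ≤ c x := by
    intro x hx
    obtain ⟨k, hk1, hk2, hk | hk⟩ := Cor_exists_abs x hx
    · rw [hk]; exact hmin k hk1 hk2
    · rw [hk, hc]; exact hmin k hk1 hk2
  have h1val : (1 : ZMod n).val = 1 := by
    have : Fact (1 < n) := ⟨by omega⟩
    exact ZMod.val_one n
  have hcop : Nat.Coprime (n.gcd a) (1 : ZMod n).val := by
    rw [h1val]; exact Nat.coprime_one_right _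
  have hgeq : n.gcd a = n.gcd (a : ZMod n).val := by rw [hval]
  obtain ⟨C⟩ := exists_coord (a : ZMod n) 1 ha0 (hgeq ▸ hg2) (hgeq ▸ hcop)
  have hfact : Fact (1 < n.gcd (a : ZMod n).val) := ⟨by rw [← hgeq]; omega⟩
  have hq : ∀ b, OnLine (a : ZMod n) 1 b → C.q b = 1 := by
    rintro b ⟨k, rfl⟩
    rw [map_add, map_zsmul, C.qa, C.qv, smul_zero, add_zero]
  have hb0 : ∀ b, OnLine (a : ZMod n) 1 b → b ≠ 0 := by
    rintro b hb rfl
    have := hq 0 hb
    rw [map_zero] at this
    exact zero_ne_one this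
  have hba : ∀ b, OnLine (a : ZMod n) 1 b → b ≠ (a : ZMod n) := by
    rintro b hb rfl
    have := hq _ hb
    rw [C.qa] at this
    exact zero_ne_one this
  have hba' : ∀ b, OnLine (a : ZMod n) 1 b → b ≠ -(a : ZMod n) := by
    rintro b hb rfl
    have := hq _ hb
    rw [map_neg, C.qa, neg_zero] at this
    exact zero_ne_one this
  set w : ZMod n → ℝ := fun z => c z - c (a : ZMod n) with hw
  have hws : ∀ x, w (-x) = w x := fun x => by simp only [hw, hc]
  have hw0 : ∀ x, x ≠ 0 → 0 ≤ w x := fun x hx => sub_nonneg.2 (hminx x hx)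
  have hup : OnLine (a : ZMod n) 1 ((a + 1 : ℕ) : ZMod n) :=
    ⟨1, by push_cast; rw [one_smul]; ring⟩
  have hdn : OnLine (a : ZMod n) 1 (-((a - 1 : ℕ) : ZMod n)) :=
    ⟨-1, by rw [Nat.cast_sub ha1]; push_cast; rw [neg_smul, one_smul]; ring⟩
  -- convexity on the natural numbers
  have hup' : ∀ j, a + j + 1 ≤ n / 2 → ((j : ℝ) + 1) * w ((a + 1 : ℕ) : ZMod n) ≤
      w ((a + j + 1 : ℕ) : ZMod n) := by
    intro j hj
    have := (Cor_conv_up (fun i => w (i : ZMod n)) a (n / 2) ha1 (by simp [hw]) (by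
      intro i h1 h2
      have := hconv i h1 h2
      simp only [hw]
      linarith) j hj).2
    linarith
  have hdn' : ∀ j, j + 2 ≤ a → ((j : ℝ) + 1) * w ((a - 1 : ℕ) : ZMod n) ≤
      w ((a - (j + 1) : ℕ) : ZMod n) := by
    intro j hj
    have := (Cor_conv_down (fun i => w (i : ZMod n)) a (n / 2) ha2 (by simp [hw]) (by
      intro i h1 h2
      have := hconv i h1 h2
      simp only [hw]
      linarith) j hj).2
    linarith
  have hm : IsLeast {z : ℝ | ∃ b, OnLine (a : ZMod n) 1 b ∧ z = c b - c (a : ZMod n)}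
      (min (c ((a - 1 : ℕ) : ZMod n)) (c ((a + 1 : ℕ) : ZMod n)) - c (a : ZMod n)) := by
    constructor
    · rcases le_total (c ((a - 1 : ℕ) : ZMod n)) (c ((a + 1 : ℕ) : ZMod n)) with h | h
      · refine ⟨_, hdn, ?_⟩
        rw [min_eq_left h, hc]
      · refine ⟨_, hup, ?_⟩
        rw [min_eq_right h]
    · rintro z ⟨b, hb, rfl⟩
      have key : ∀ k : ℕ, 1 ≤ k → k ≤ n / 2 → k ≠ a →
          min (c ((a - 1 : ℕ) : ZMod n)) (c ((a + 1 : ℕ) : ZMod n)) - c (a : ZMod n) ≤
            w (k : ZMod n) := by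
        intro k hk1 hk2 hka
        rcases lt_or_gt_of_ne hka with h | h
        · obtain ⟨j, hj⟩ : ∃ j, a = k + j + 1 := ⟨a - k - 1, by omega⟩
          have h1 := hdn' j (by omega)
          have e : a - (j + 1) = k := by omega
          rw [e] at h1
          have h2 : 0 ≤ w (-((a - 1 : ℕ) : ZMod n)) := hw0 _ (hb0 _ hdn)
          rw [hws] at h2
          have h3 : w ((a - 1 : ℕ) : ZMod n) ≤ ((j : ℝ) + 1) * w ((a - 1 : ℕ) : ZMod n) := by
            have := mul_nonneg (Nat.cast_nonneg (α := ℝ) j) h2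
            linarith
          calc _ ≤ w ((a - 1 : ℕ) : ZMod n) := by
                simp only [hw]; linarith [min_le_left (c ((a - 1 : ℕ) : ZMod n)) (c ((a + 1 : ℕ) : ZMod n))]
            _ ≤ _ := h3.trans h1
        · obtain ⟨j, hj⟩ : ∃ j, k = a + j + 1 := ⟨k - a - 1, by omega⟩
          have h1 := hup' j (by omega)
          rw [← hj] at h1
          have h2 : 0 ≤ w ((a + 1 : ℕ) : ZMod n) := hw0 _ (hb0 _ hup)
          have h3 : w ((a + 1 : ℕ) : ZMod n) ≤ ((j : ℝ) + 1) * w ((a + 1 : ℕ) : ZMod n) := by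
            have := mul_nonneg (Nat.cast_nonneg (α := ℝ) j) h2
            linarith
          calc _ ≤ w ((a + 1 : ℕ) : ZMod n) := by
                simp only [hw]; linarith [min_le_right (c ((a - 1 : ℕ) : ZMod n)) (c ((a + 1 : ℕ) : ZMod n))]
            _ ≤ _ := h3.trans h1
      obtain ⟨k, hk1, hk2, hk⟩ := Cor_exists_abs b (hb0 b hb)
      have hka : k ≠ a := by
        rintro rfl
        rcases hk with hk | hk
        · exact hba b hb hk
        · exact hba' b hb hk
      have := key k hk1 hk2 hka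
      rcases hk with hk | hk
      · rw [hk]; exact this
      · rw [hk, hc]; exact this
  refine main' hn c hc (a : ZMod n) 1 ha0 hminx (n.gcd a) hgeq hg2 hcop _ hm ?_ L hL
  intro x hx0 hxa hxa'
  left
  have key : ∀ k : ℕ, 1 ≤ k → k ≤ n / 2 → k ≠ a → Dominated w (a : ZMod n) 1 (k : ZMod n) := by
    intro k hk1 hk2 hka
    rcases lt_or_gt_of_ne hka with h | h
    · obtain ⟨j, hj⟩ : ∃ j, a = k + j + 1 := ⟨a - k - 1, by omega⟩
      refine ⟨List.replicate (j + 1) (-1, -((a - 1 : ℕ) : ZMod n)), -(j : ℤ), by simp, ?_, ?_, ?_,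
        ?_, ?_⟩
      · intro p hp
        rw [List.eq_of_mem_replicate hp]
        exact ⟨Or.inr rfl, hdn⟩
      · simp
      · rw [List.length_replicate]
        push_cast
        have : -(j : ℤ) - ((j : ℤ) + 1 - 1) = 2 * (-(j : ℤ)) := by ring
        rw [this]
        exact even_two_mul _
      · rw [List.map_replicate, List.sum_replicate, Nat.cast_sub ha1, hj]
        simp only [neg_smul, one_smul, nsmul_eq_mul, zsmul_eq_mul]
        push_cast
        ring
      · rw [List.map_replicate, List.sum_replicate, nsmul_eq_mul]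
        have h1 := hdn' j (by omega)
        have e : a - (j + 1) = k := by omega
        rw [e] at h1
        simp only [hws]
        push_cast
        exact h1
    · obtain ⟨j, hj⟩ : ∃ j, k = a + j + 1 := ⟨k - a - 1, by omega⟩
      refine ⟨List.replicate (j + 1) (1, ((a + 1 : ℕ) : ZMod n)), -(j : ℤ), by simp, ?_, ?_, ?_,
        ?_, ?_⟩
      · intro p hp
        rw [List.eq_of_mem_replicate hp]
        exact ⟨Or.inl rfl, hup⟩
      · simp
      · rw [List.length_replicate]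
        push_cast
        have : -(j : ℤ) - ((j : ℤ) + 1 - 1) = 2 * (-(j : ℤ)) := by ring
        rw [this]
        exact even_two_mul _
      · rw [List.map_replicate, List.sum_replicate, hj]
        simp only [one_smul, nsmul_eq_mul, zsmul_eq_mul, neg_smul]
        push_cast
        ring
      · rw [List.map_replicate, List.sum_replicate, nsmul_eq_mul]
        have h1 := hup' j (by omega)
        rw [← hj] at h1
        push_cast at h1 ⊢
        exact h1
  obtain ⟨k, hk1, hk2, hk⟩ := Cor_exists_abs x hx0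
  have hka : k ≠ a := by
    rintro rfl
    rcases hk with hk | hk
    · exact hxa hk
    · exact hxa' hk
  rcases hk with hk | hk
  · rw [hk]; exact key k hk1 hk2 hka
  · rw [hk]; exact Cor_dominated_neg w hws _ _ _ (key k hk1 hk2 hka)

end Pool.CTS
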