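import Pool.Agent.CTS.Defs

/-!
# CTS: module Crd (coordinates of `ℤ/n`)
-/

open Finset

namespace Pool.CTS

theorem exists_coord {n : ℕ} [NeZero n] (a v : ZMod n) (ha : a ≠ 0)
    (hg : 2 ≤ n.gcd a.val) (hv : Nat.Coprime (n.gcd a.val) v.val) :
    Nonempty (Coord n (n.gcd a.val) (n / n.gcd a.val) a v) := by
  have hn0 : 0 < n := Nat.pos_of_ne_zero (NeZero.ne n)
  set g := n.gcd a.val with hgdef
  have hgn : g ∣ n := Nat.gcd_dvd_left _ _
  have hga : g ∣ a.val := Nat.gcd_dvd_right _ _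
  have hcast : ∀ x : ZMod n, ZMod.castHom hgn (ZMod g) x = (x.val : ZMod g) := by
    intro x
    conv_lhs => rw [← ZMod.natCast_zmod_val x]
    exact map_natCast _ _
  have hvv : (v.val : ZMod g) * (v.val : ZMod g)⁻¹ = 1 := ZMod.coe_mul_inv_eq_one _ hv.symm
  let q : ZMod n →+ ZMod g :=
    (AddMonoidHom.mulRight ((v.val : ZMod g)⁻¹)).comp (ZMod.castHom hgn (ZMod g)).toAddMonoidHom
  have hq : ∀ x, q x = (x.val : ZMod g) * (v.val : ZMod g)⁻¹ := by
    intro x
    show ZMod.castHom hgn (ZMod g) x * _ = _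
    rw [hcast]
  have hgr : g * (n / g) = n := Nat.mul_div_cancel' hgn
  have hra : (n / g) • a = 0 := by
    obtain ⟨b, hb⟩ := hga
    have h1 : (n / g) • a = (((n / g) * a.val : ℕ) : ZMod n) := by
      rw [nsmul_eq_mul, Nat.cast_mul, ZMod.natCast_zmod_val]
    rw [h1, hb, ← mul_assoc, mul_comm (n / g) g, hgr, Nat.cast_mul, ZMod.natCast_self, zero_mul]
  have hapos : 0 < a.val := Nat.pos_of_ne_zero fun h => ha ((ZMod.val_eq_zero a).1 h)
  have hgltn : g < n := lt_of_le_of_lt (Nat.le_of_dvd hapos hga) (ZMod.val_lt a)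
  have hr2 : 2 ≤ n / g := by
    by_contra hcon
    have h1 : n / g ≤ 1 := by omega
    have h2 : g * (n / g) ≤ g * 1 := Nat.mul_le_mul_left g h1
    omega
  refine ⟨⟨q, ?_, ?_, ?_, hra, hr2, hg, hgr⟩⟩
  · rw [hq, (ZMod.natCast_eq_zero_iff a.val g).2 hga, zero_mul]
  · rw [hq, hvv]
  · intro x hx
    rw [hq] at hx
    have h1 : (x.val : ZMod g) = 0 := by
      have h2 := congrArg (fun y => y * (v.val : ZMod g)) hx
      simp only [zero_mul] at h2
      rw [mul_assoc, mul_comm ((v.val : ZMod g)⁻¹), hvv, mul_one] at h2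
      exact h2
    obtain ⟨t, ht⟩ := (ZMod.natCast_eq_zero_iff x.val g).1 h1
    have hbez : (g : ZMod n) = a * ((Nat.gcdB n a.val : ℤ) : ZMod n) := by
      have h3 := Nat.gcd_eq_gcd_ab n a.val
      have h4 := congrArg (fun z : ℤ => (z : ZMod n)) h3
      simp only [Int.cast_add, Int.cast_mul, Int.cast_natCast, ZMod.natCast_self, zero_mul,
        zero_add, ZMod.natCast_zmod_val] at h4
      exact h4
    have hxa : x = ((Nat.gcdB n a.val) * (t : ℤ)) • a := by
      have h5 : x = ((g * t : ℕ) : ZMod n) := by rw [← ht, ZMod.natCast_zmod_val]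
      rw [h5, Nat.cast_mul, hbez, zsmul_eq_mul, Int.cast_mul, Int.cast_natCast]
      ring
    set k0 : ℤ := (Nat.gcdB n a.val) * (t : ℤ) with hk0
    have hrpos : (0 : ℤ) < (n / g : ℕ) := by omega
    refine ⟨(k0 % (n / g : ℕ)).toNat, ?_, ?_⟩
    · have h6 := Int.emod_lt_of_pos k0 hrpos
      have h7 := Int.emod_nonneg k0 hrpos.ne'
      omega
    · have h7 := Int.emod_nonneg k0 hrpos.ne'
      have h8 : ((k0 % (n / g : ℕ)).toNat) • a = (k0 % (n / g : ℕ)) • a := by
        rw [← natCast_zsmul, Int.toNat_of_nonneg h7]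
      rw [h8]
      have h9 : k0 • a = ((n / g : ℕ) * (k0 / (n / g : ℕ)) + k0 % (n / g : ℕ)) • a := by
        rw [Int.mul_ediv_add_emod]
      rw [hxa, h9, add_zsmul, mul_comm, mul_zsmul, natCast_zsmul, hra, zsmul_zero, zero_add]

end Pool.CTS
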