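import Pool.Agent.CTS.Defs

/-!
# CTS: module Dyn (the dynamic programme)  (helper94)
-/

open Finset

namespace Pool.CTS

theorem D_le {n : ℕ} (w : ZMod n → ℝ) (L : Finset (ZMod n)) (u : List (ZMod n))
    (hu : ∀ b ∈ u, b ∈ L) : D w L u.length u.sum ≤ (((u.map w).sum : ℝ) : WithTop ℝ) := by
  induction u with
  | nil => simp [D]
  | cons b u ih =>
    have h1 := ih (fun x hx => hu x (List.mem_cons_of_mem _ hx))
    have hb : b ∈ L := hu b (by simp)
    have h2 : D w L (b :: u).length (b :: u).sum ≤
        (w b : WithTop ℝ) + D w L u.length (b + u.sum - b) := by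
      rw [List.length_cons, List.sum_cons]
      exact Finset.inf_le (f := fun b' => (w b' : WithTop ℝ) + D w L u.length (b + u.sum - b')) hb
    rw [add_sub_cancel_left] at h2
    refine h2.trans ?_
    rw [List.map_cons, List.sum_cons, WithTop.coe_add]
    exact add_le_add_right h1 _

theorem exists_D {n : ℕ} (w : ZMod n → ℝ) (L : Finset (ZMod n)) (j : ℕ) (x : ZMod n)
    (h : D w L j x ≠ ⊤) :
    ∃ u : List (ZMod n), u.length = j ∧ (∀ b ∈ u, b ∈ L) ∧ u.sum = x ∧
      D w L j x = (((u.map w).sum : ℝ) : WithTop ℝ) := by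
  induction j generalizing x with
  | zero =>
    by_cases hx : x = 0
    · exact ⟨[], rfl, by simp, by simp [hx], by simp [D, hx]⟩
    · exfalso
      apply h
      simp [D, hx]
  | succ j ih =>
    have hne : L.Nonempty := by
      rw [Finset.nonempty_iff_ne_empty]
      intro h0
      apply h
      simp [D, h0]
    obtain ⟨b, hb, hb2⟩ := Finset.exists_mem_eq_inf L hne
      (fun b => (w b : WithTop ℝ) + D w L j (x - b))
    have hD : D w L (j + 1) x = (w b : WithTop ℝ) + D w L j (x - b) := hb2
    have h3 : D w L j (x - b) ≠ ⊤ := by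
      intro h4
      apply h
      rw [hD, h4]
      exact WithTop.add_top _
    obtain ⟨u, hu1, hu2, hu3, hu4⟩ := ih (x - b) h3
    refine ⟨b :: u, by simp [hu1], ?_, ?_, ?_⟩
    · intro c hc
      rcases List.mem_cons.1 hc with rfl | hc
      · exact hb
      · exact hu2 c hc
    · rw [List.sum_cons, hu3]
      abel
    · rw [hD, hu4, List.map_cons, List.sum_cons, WithTop.coe_add]

end Pool.CTS
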