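import Pool.Agent.CTS.Defs
import Pool.Agent.CTS.Wrd
import Pool.Agent.CTS.Blk

open Finset

namespace Pool.CTS

/-- The descending part of the ladder: from `k • b - e • a` down to `0`. -/
def Lad_T {n : ℕ} (a b : ZMod n) (r : ℕ) : ℕ → ℤ → List (ZMod n)
  | 0, e => [e • a]
  | k + 1, e => (-b) :: (List.replicate (r - 2) (-(e • a)) ++ Lad_T a b r k (-e))

theorem Lad_T_length {n : ℕ} (a b : ZMod n) (r : ℕ) (hr : 2 ≤ r) (k : ℕ) (e : ℤ) :
    (Lad_T a b r k e).length = k * (r - 1) + 1 := by
  induction k generalizing e with
  | zero => simp [Lad_T]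
  | succ k ih =>
    rw [Lad_T, List.length_cons, List.length_append, List.length_replicate, ih, Nat.succ_mul]
    omega

theorem Lad_ra {n : ℕ} (a : ZMod n) (r : ℕ) (hr : 2 ≤ r) (hra : r • a = 0) (e : ℤ) :
    (r - 2) • (-(e • a)) = (2 * e) • a := by
  obtain ⟨s, rfl⟩ : ∃ s, r = s + 2 := ⟨r - 2, by omega⟩
  have h : ((s + 2 : ℕ) : ZMod n) * a = 0 := by rw [← nsmul_eq_mul]; exact hra
  simp only [Nat.add_sub_cancel, nsmul_eq_mul, zsmul_eq_mul]
  push_cast at h ⊢
  linear_combination (-(e : ZMod n)) * h

theorem Lad_T_sum {n : ℕ} (a b : ZMod n) (r : ℕ) (hr : 2 ≤ r) (hra : r • a = 0) (k : ℕ) (e : ℤ) :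
    (Lad_T a b r k e).sum = -(k • b) + e • a := by
  induction k generalizing e with
  | zero => simp [Lad_T]
  | succ k ih =>
    rw [Lad_T, List.sum_cons, List.sum_append, List.sum_replicate, ih, Lad_ra a r hr hra]
    simp only [nsmul_eq_mul, zsmul_eq_mul]
    push_cast
    ring

theorem Lad_T_cost {n : ℕ} (a b : ZMod n) (r : ℕ) (hr : 2 ≤ r) (c : ZMod n → ℝ)
    (hc : ∀ x, c (-x) = c x) (k : ℕ) (e : ℤ) (he : e = 1 ∨ e = -1) :
    ((Lad_T a b r k e).map c).sum = k * c b + (k * ((r : ℝ) - 2) + 1) * c a := by
  have hce : ∀ e : ℤ, e = 1 ∨ e = -1 → c (e • a) = c a := by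
    rintro e (rfl | rfl)
    · rw [one_smul]
    · rw [neg_smul, one_smul, hc]
  induction k generalizing e with
  | zero =>
    rw [Lad_T, List.map_cons, List.map_nil, List.sum_cons, List.sum_nil, hce e he]
    simp
  | succ k ih =>
    rw [Lad_T, List.map_cons, List.sum_cons, List.map_append, List.sum_append,
      List.map_replicate, List.sum_replicate, ih (-e) (by rcases he with rfl | rfl <;> simp), hc, hc,
      hce e he, nsmul_eq_mul, Nat.cast_sub hr]
    push_cast
    ring

theorem Lad_T_visit {n : ℕ} (a b : ZMod n) (r : ℕ) (hr : 2 ≤ r) (hra : r • a = 0) (k : ℕ) (e : ℤ)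
    (he : e = 1 ∨ e = -1) (j : ℕ) (hj : j < k) (i : ℕ) (hi1 : 1 ≤ i) (hi2 : i < r) :
    ∃ t < (Lad_T a b r k e).length,
      k • b - e • a + ((Lad_T a b r k e).take t).sum = j • b + i • a := by
  have hra' : (r : ZMod n) * a = 0 := by rw [← nsmul_eq_mul]; exact hra
  induction k generalizing e with
  | zero => omega
  | succ k ih =>
    have hlen : (Lad_T a b r (k + 1) e).length =
        (-b :: List.replicate (r - 2) (-(e • a))).length + (Lad_T a b r k (-e)).length := by
      rw [Lad_T, ← List.cons_append, List.length_append]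
    have hl0 : 1 ≤ (Lad_T a b r k (-e)).length := by rw [Lad_T_length _ _ _ hr]; omega
    rcases Nat.lt_succ_iff_lt_or_eq.1 hj with hj | rfl
    · obtain ⟨t, ht, hts⟩ := ih (-e) (by rcases he with rfl | rfl <;> simp) hj
      refine ⟨(-b :: List.replicate (r - 2) (-(e • a))).length + t, by omega, ?_⟩
      rw [Lad_T, ← List.cons_append, List.take_length_add_append, List.sum_append, List.sum_cons,
        List.sum_replicate, Lad_ra a r hr hra, ← hts]
      simp only [nsmul_eq_mul, zsmul_eq_mul]
      push_cast
      ring
    · have key : ∀ s, s ≤ r - 2 → ∃ t < (Lad_T a b r (j + 1) e).length,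
          (j + 1) • b - e • a + ((Lad_T a b r (j + 1) e).take t).sum
            = j • b - ((s : ℤ) + 1) • (e • a) := by
        intro s hs
        refine ⟨1 + s, ?_, ?_⟩
        · rw [hlen, List.length_cons, List.length_replicate]
          omega
        · rw [Lad_T, add_comm 1 s, List.take_succ_cons, List.take_append_of_le_length (by simpa using hs),
            List.take_replicate, min_eq_left hs, List.sum_cons, List.sum_replicate]
          simp only [nsmul_eq_mul, zsmul_eq_mul]
          push_cast
          ring
      rcases he with rfl | rfl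
      · obtain ⟨t, ht, hts⟩ := key (r - i - 1) (by omega)
        refine ⟨t, ht, ?_⟩
        rw [hts]
        obtain ⟨s, hs⟩ : ∃ s, r = i + s + 1 := ⟨r - i - 1, by omega⟩
        have : r - i - 1 = s := by omega
        rw [this]
        rw [hs] at hra'
        simp only [nsmul_eq_mul, zsmul_eq_mul]
        push_cast at hra' ⊢
        linear_combination (-1 : ZMod n) * hra'
      · obtain ⟨t, ht, hts⟩ := key (i - 1) (by omega)
        refine ⟨t, ht, ?_⟩
        rw [hts]
        obtain ⟨s, hs⟩ : ∃ s, i = s + 1 := ⟨i - 1, by omega⟩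
        subst hs
        simp only [nsmul_eq_mul, zsmul_eq_mul, Nat.add_sub_cancel]
        push_cast
        ring

theorem ladder_tour {n g r : ℕ} [NeZero n] {a v : ZMod n} (C : Coord n g r a v) (c : ZMod n → ℝ)
    (hc : ∀ x, c (-x) = c x) (b : ZMod n) (hb : OnLine a v b) :
    ∃ f : ZMod n ≃ ZMod n, tourCost c f = n * c a + 2 * ((g : ℝ) - 1) * (c b - c a) := by
  have hr := C.hr
  have hg := C.hg
  have hn := C.hn
  have hra := C.ra
  have hra' : (r : ZMod n) * a = 0 := by rw [← nsmul_eq_mul]; exact hra
  have hqb : C.q b = 1 := by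
    obtain ⟨k, rfl⟩ := hb
    rw [map_add, map_zsmul, C.qa, C.qv, smul_zero, add_zero]
  set T := Lad_T a b r (g - 1) 1 with hT
  have hTl : T.length = (g - 1) * (r - 1) + 1 := Lad_T_length a b r hr (g - 1) 1
  have hglen : (g - 1) + (r - 1) + T.length = n := by
    rw [hTl, ← hn]
    obtain ⟨s, rfl⟩ : ∃ s, r = s + 1 := ⟨r - 1, by omega⟩
    obtain ⟨t, rfl⟩ : ∃ t, g = t + 1 := ⟨g - 1, by omega⟩
    simp only [Nat.add_sub_cancel]
    ring
  have hra1 : (r - 1) • a = -a := by
    have h1 : (r - 1) • a + a = 0 := by
      rw [← succ_nsmul]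
      have : r - 1 + 1 = r := by omega
      rw [this, hra]
    exact eq_neg_of_add_eq_zero_left h1
  obtain ⟨f, hf⟩ := tour_of_word c (List.replicate (g - 1) b ++ (List.replicate (r - 1) a ++ T))
    (by rw [List.length_append, List.length_append, List.length_replicate, List.length_replicate]
        omega)
    (by
      rw [List.sum_append, List.sum_append, List.sum_replicate, List.sum_replicate, hT,
        Lad_T_sum a b r hr hra, hra1, one_smul]
      abel)
    (by
      intro x
      have : NeZero g := ⟨by omega⟩
      have hxg := ZMod.val_lt (C.q x)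
      obtain ⟨i, hi, hxi⟩ := C.ker (x - ((C.q x).val : ℕ) • b) (by
        rw [map_sub, map_nsmul, hqb, nsmul_eq_mul, mul_one, ZMod.natCast_zmod_val, sub_self])
      have hx : x = ((C.q x).val : ℕ) • b + i • a := by rw [← hxi]; abel
      set k := (C.q x).val with hk
      by_cases hi0 : i = 0
      · refine ⟨k, by omega, ?_⟩
        rw [List.take_append_of_le_length (by rw [List.length_replicate]; omega),
          List.take_replicate, min_eq_left (by omega), List.sum_replicate, hx, hi0, zero_smul,
          add_zero]
      · by_cases hkg : k = g - 1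
        · refine ⟨(List.replicate (g - 1) b).length + i, ?_, ?_⟩
          · rw [List.length_replicate]; omega
          · rw [List.take_length_add_append, List.sum_append, List.sum_replicate,
              List.take_append_of_le_length (by rw [List.length_replicate]; omega),
              List.take_replicate, min_eq_left (by omega), List.sum_replicate, hx, hkg]
        · obtain ⟨t, ht, hts⟩ := Lad_T_visit a b r hr hra (g - 1) 1 (Or.inl rfl) k (by omega) i
            (by omega) hi
          refine ⟨(List.replicate (g - 1) b).length + ((List.replicate (r - 1) a).length + t), ?_, ?_⟩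
          · rw [List.length_replicate, List.length_replicate]
            rw [← hT] at ht
            omega
          · rw [List.take_length_add_append, List.sum_append, List.sum_replicate,
              List.take_length_add_append, List.sum_append, List.sum_replicate, hra1, hx, ← hts,
              one_smul, hT]
            abel)
  refine ⟨f, ?_⟩
  rw [hf, List.map_append, List.sum_append, List.map_append, List.sum_append, List.map_replicate,
    List.map_replicate, List.sum_replicate, List.sum_replicate, hT,
    Lad_T_cost a b r hr c hc (g - 1) 1 (Or.inl rfl), nsmul_eq_mul, nsmul_eq_mul,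
    Nat.cast_sub (by omega : 1 ≤ g), Nat.cast_sub (by omega : 1 ≤ r)]
  have hnr : (n : ℝ) = g * r := by rw [← hn]; push_cast; ring
  rw [hnr]
  push_cast
  ring

end Pool.CTS
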