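import Pool.Agent.CTS.Defs
import Pool.Agent.CTS.Col

set_option autoImplicit false

/-!
# CTS/Trail: signs on a tour and on the `a`-cycles
-/

open Finset

namespace Pool.CTS

theorem exists_signs {n : ℕ} (τ : Equiv.Perm (ZMod n)) (h2 : ∀ x, τ (τ x) ≠ x) (a : ZMod n) :
    ∃ s t : ZMod n → ℤ, (∀ x, s x = 1 ∨ s x = -1) ∧ (∀ x, t x = 1 ∨ t x = -1) ∧
      (∀ x, s x - s (τ.symm x) = t x - t (x - a)) ∧
      (∀ x, τ x = x + a → s x = t x) ∧
      (∀ x, τ x = x - a → x + a ≠ x - a → s x = - t (x - a)) := by
  classical
  let P : ZMod n → Prop := fun x => τ x = x + a ∨ τ.symm x = x - a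
  let F : ZMod n × Bool → ZMod n × Bool := fun e =>
    match e with
    | (x, true) => (τ x, false)
    | (x, false) => (τ.symm x, true)
  let G : ZMod n × Bool → ZMod n × Bool := fun e =>
    match e with
    | (x, true) => (x + a, false)
    | (x, false) => (x - a, true)
  let μ : ZMod n × Bool → ZMod n × Bool := fun e => (e.1, if P e.1 then e.2 else !e.2)
  have hμμ : ∀ e, μ (μ e) = e := by
    rintro ⟨x, b⟩
    by_cases hx : P x
    · simp only [μ, if_pos hx]
    · simp only [μ, if_neg hx, Bool.not_not]
  have hFF : ∀ e, F (F e) = e := by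
    rintro ⟨x, _ | _⟩
    · simp only [F, Equiv.apply_symm_apply]
    · simp only [F, Equiv.symm_apply_apply]
  have hGG : ∀ e, G (G e) = e := by
    rintro ⟨x, _ | _⟩
    · simp only [G, sub_add_cancel]
    · simp only [G, add_sub_cancel_right]
  have hF' : ∀ e, F e ≠ e := by
    rintro ⟨x, _ | _⟩ h
    · have := congrArg Prod.snd h
      simp [F] at this
    · have := congrArg Prod.snd h
      simp [F] at this
  have hG' : ∀ e, G e ≠ e := by
    rintro ⟨x, _ | _⟩ h
    · have := congrArg Prod.snd h
      simp [G] at this
    · have := congrArg Prod.snd h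
      simp [G] at this
  obtain ⟨o, ho, hoF, hoH⟩ := exists_coloring F (fun e => μ (G (μ e))) hFF
    (fun e => by simp only [hμμ, hGG]) hF' (fun e he => by
      apply hG' (μ e)
      have := congrArg μ he
      rwa [hμμ] at this)
  have h3 : ∀ x, o (x, false) = - o (τ.symm x, true) := by
    intro x
    have h4 := hoF (x, false)
    have h5 : F (x, false) = (τ.symm x, true) := rfl
    rw [h5] at h4
    omega
  have h4 : ∀ x, o (μ (x, false)) = - o (μ (x - a, true)) := by
    intro x
    have h5 := hoH (μ (x, false))
    simp only [hμμ] at h5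
    have h6 : G (x, false) = (x - a, true) := rfl
    rw [h6] at h5
    omega
  refine ⟨fun x => o (x, true), fun x => o (μ (x, true)), fun x => ho _, fun x => ho _,
    fun x => ?_, fun x hx => ?_, fun x hx hxa => ?_⟩
  · have h5 := h3 x
    have h6 := h4 x
    simp only
    by_cases hx : P x
    · have h7 : μ (x, true) = (x, true) := by simp only [μ, if_pos hx]
      have h8 : μ (x, false) = (x, false) := by simp only [μ, if_pos hx]
      rw [h7]
      rw [h8] at h6
      omega
    · have h7 : μ (x, true) = (x, false) := by simp only [μ, if_neg hx, Bool.not_true]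
      have h8 : μ (x, false) = (x, true) := by simp only [μ, if_neg hx, Bool.not_false]
      rw [h7]
      rw [h8] at h6
      omega
  · have h7 : μ (x, true) = (x, true) := by
      have hP : P x := Or.inl hx
      simp only [μ, if_pos hP]
    simp only [h7]
  · have hP : ¬ P x := by
      rintro (h5 | h5)
      · exact hxa (h5.symm.trans hx)
      · apply h2 x
        rw [hx, ← h5, Equiv.apply_symm_apply]
    have h8 : μ (x, false) = (x, true) := by simp only [μ, if_neg hP, Bool.not_false]
    have h6 := h4 x
    rw [h8] at h6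
    exact h6

end Pool.CTS
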