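import Pool.Agent.CTS.Defs
import Pool.Agent.CTS.Trail

/-! CTS module Rel: chord_relation  (helper69) -/

open Finset

namespace Pool.CTS

private lemma Rel_abel {n : ℕ} [NeZero n] {A : Type*} [AddCommGroup A] (τ : Equiv.Perm (ZMod n))
    (a : ZMod n) (s t : ZMod n → ℤ)
    (h : ∀ x, s x - s (τ.symm x) = t x - t (x - a)) (pos : ZMod n → A) :
    ∑ x, s x • (pos (τ x) - pos x) = ∑ x, t x • (pos (x + a) - pos x) := by
  have h1 : ∑ x, s x • pos (τ x) = ∑ x, s (τ.symm x) • pos x := by
    rw [← Equiv.sum_comp τ (fun x => s (τ.symm x) • pos x)]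
    simp
  have h2 : ∑ x, t x • pos (x + a) = ∑ x, t (x - a) • pos x := by
    rw [← Equiv.sum_comp (Equiv.addRight a) (fun x => t (x - a) • pos x)]
    simp
  have h3 : ∑ x, s x • (pos (τ x) - pos x) = ∑ x, (s (τ.symm x) - s x) • pos x := by
    simp only [smul_sub, sub_smul, Finset.sum_sub_distrib, h1]
  have h4 : ∑ x, t x • (pos (x + a) - pos x) = ∑ x, (t (x - a) - t x) • pos x := by
    simp only [smul_sub, sub_smul, Finset.sum_sub_distrib, h2]
  rw [h3, h4]
  refine Finset.sum_congr rfl fun x _ => ?_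
  have := h x
  have h5 : s (τ.symm x) - s x = t (x - a) - t x := by linarith
  rw [h5]

private lemma Rel_main {n : ℕ} [NeZero n] {A : Type*} [AddCommGroup A] (τ : Equiv.Perm (ZMod n))
    (h2 : ∀ x, τ (τ x) ≠ x) (a : ZMod n) (K : Finset (ZMod n))
    (hK : ∀ x, x ∈ K ↔ τ x ≠ x + a ∧ τ x ≠ x - a) (s t : ZMod n → ℤ)
    (h : ∀ x, s x - s (τ.symm x) = t x - t (x - a))
    (hs1 : ∀ x, τ x = x + a → s x = t x)
    (hs2 : ∀ x, τ x = x - a → x + a ≠ x - a → s x = - t (x - a)) (pos : ZMod n → A) :
    ∑ x ∈ K, s x • (pos (τ x) - pos x) =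
      ∑ y ∈ univ \ (univ \ K).image (fun x => if τ x = x + a then x else x - a),
        t y • (pos (y + a) - pos y) := by
  classical
  set φ : ZMod n → ZMod n := fun x => if τ x = x + a then x else x - a with hφ
  have hinj : Set.InjOn φ (↑(univ \ K) : Set (ZMod n)) := by
    intro x hx y hy hxy
    simp only [Finset.coe_sdiff, Finset.coe_univ, Set.mem_sdiff, Set.mem_univ, true_and,
      Finset.mem_coe, hK, not_and_or, not_not] at hx hy
    simp only [hφ] at hxy
    by_cases hx1 : τ x = x + a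
    · by_cases hy1 : τ y = y + a
      · simpa [hx1, hy1] using hxy
      · exfalso
        rw [if_pos hx1, if_neg hy1] at hxy
        have hy2 : τ y = y - a := by tauto
        apply h2 x
        have hyx : y = x + a := by rw [hxy]; ring
        rw [hx1, ← hyx, hy2, ← hxy]
    · by_cases hy1 : τ y = y + a
      · exfalso
        rw [if_neg hx1, if_pos hy1] at hxy
        have hx2 : τ x = x - a := by tauto
        apply h2 y
        have hyx : x = y + a := by rw [← hxy]; ring
        rw [hy1, ← hyx, hx2, hxy]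
      · rw [if_neg hx1, if_neg hy1] at hxy
        exact sub_left_injective hxy
  have hM : ∑ x ∈ univ \ K, s x • (pos (τ x) - pos x) =
      ∑ y ∈ (univ \ K).image φ, t y • (pos (y + a) - pos y) := by
    rw [Finset.sum_image hinj]
    refine Finset.sum_congr rfl fun x hx => ?_
    simp only [Finset.mem_sdiff, Finset.mem_univ, true_and, hK, not_and_or, not_not] at hx
    by_cases hx1 : τ x = x + a
    · simp only [hφ, if_pos hx1]
      rw [hs1 x hx1, hx1]
    · have hx2 : τ x = x - a := by tauto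
      simp only [hφ, if_neg hx1]
      have hne : x + a ≠ x - a := by
        intro he
        exact hx1 (hx2.trans he.symm)
      rw [hs2 x hx2 hne, hx2, sub_add_cancel, neg_smul, ← smul_neg, neg_sub]
  have h5 := Rel_abel τ a s t h pos
  have h6 : ∑ x ∈ univ \ K, s x • (pos (τ x) - pos x) + ∑ x ∈ K, s x • (pos (τ x) - pos x) =
      ∑ x, s x • (pos (τ x) - pos x) := Finset.sum_sdiff (Finset.subset_univ K)
  have h7 : ∑ y ∈ univ \ (univ \ K).image φ, t y • (pos (y + a) - pos y) +
      ∑ y ∈ (univ \ K).image φ, t y • (pos (y + a) - pos y) =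
      ∑ x, t x • (pos (x + a) - pos x) := Finset.sum_sdiff (Finset.subset_univ _)
  have h8 : ∑ x ∈ K, s x • (pos (τ x) - pos x) =
      ∑ x, s x • (pos (τ x) - pos x) - ∑ x ∈ univ \ K, s x • (pos (τ x) - pos x) := by
    rw [← h6]; abel
  rw [h8, h5, hM, ← h7]
  abel

private lemma Rel_card {n : ℕ} [NeZero n] (τ : Equiv.Perm (ZMod n))
    (h2 : ∀ x, τ (τ x) ≠ x) (a : ZMod n) (K : Finset (ZMod n))
    (hK : ∀ x, x ∈ K ↔ τ x ≠ x + a ∧ τ x ≠ x - a) :
    (univ \ (univ \ K).image (fun x => if τ x = x + a then x else x - a)).card = K.card := by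
  classical
  set φ : ZMod n → ZMod n := fun x => if τ x = x + a then x else x - a with hφ
  have hinj : Set.InjOn φ (↑(univ \ K) : Set (ZMod n)) := by
    intro x hx y hy hxy
    simp only [Finset.coe_sdiff, Finset.coe_univ, Set.mem_sdiff, Set.mem_univ, true_and,
      Finset.mem_coe, hK, not_and_or, not_not] at hx hy
    simp only [hφ] at hxy
    by_cases hx1 : τ x = x + a
    · by_cases hy1 : τ y = y + a
      · simpa [hx1, hy1] using hxy
      · exfalso
        rw [if_pos hx1, if_neg hy1] at hxy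
        have hy2 : τ y = y - a := by tauto
        apply h2 x
        have hyx : y = x + a := by rw [hxy]; ring
        rw [hx1, ← hyx, hy2, ← hxy]
    · by_cases hy1 : τ y = y + a
      · exfalso
        rw [if_neg hx1, if_pos hy1] at hxy
        have hx2 : τ x = x - a := by tauto
        apply h2 y
        have hyx : x = y + a := by rw [← hxy]; ring
        rw [hy1, ← hyx, hx2, hxy]
      · rw [if_neg hx1, if_neg hy1] at hxy
        exact sub_left_injective hxy
  have hc1 : ((univ \ K).image φ).card = (univ \ K).card := Finset.card_image_of_injOn hinj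
  have hc2 : (univ \ K).card = Fintype.card (ZMod n) - K.card := by
    rw [Finset.card_sdiff_of_subset (Finset.subset_univ K), Finset.card_univ]
  have hc3 : (univ \ (univ \ K).image φ).card =
      Fintype.card (ZMod n) - ((univ \ K).image φ).card := by
    rw [Finset.card_sdiff_of_subset (Finset.subset_univ _), Finset.card_univ]
  have hc4 : K.card ≤ Fintype.card (ZMod n) := Finset.card_le_univ K
  omega

theorem chord_relation {n : ℕ} [NeZero n] (τ : Equiv.Perm (ZMod n)) (h2 : ∀ x, τ (τ x) ≠ x)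
    (a : ZMod n) (K : Finset (ZMod n)) (hK : ∀ x, x ∈ K ↔ τ x ≠ x + a ∧ τ x ≠ x - a) :
    ∃ (s : ZMod n → ℤ) (Γ : ℤ), (∀ x, s x = 1 ∨ s x = -1) ∧ |Γ| ≤ K.card ∧ Even (Γ - K.card) ∧
      ∑ x ∈ K, s x • (τ x - x) = Γ • a ∧
      ∀ h : ZMod n → ℤ, (∀ x, h (x + a) = h x) → ∑ x ∈ K, s x * (h (τ x) - h x) = 0 := by
  classical
  obtain ⟨s, t, hs, ht, hst, hs1, hs2⟩ := exists_signs τ h2 a
  have hcard := Rel_card τ h2 a K hK
  set G : Finset (ZMod n) :=
    univ \ (univ \ K).image (fun x => if τ x = x + a then x else x - a) with hG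
  refine ⟨s, ∑ y ∈ G, t y, hs, ?_, ?_, ?_, ?_⟩
  · calc |∑ y ∈ G, t y| ≤ ∑ y ∈ G, |t y| := Finset.abs_sum_le_sum_abs _ _
      _ = ∑ y ∈ G, (1 : ℤ) := by
          refine Finset.sum_congr rfl fun y _ => ?_
          rcases ht y with h | h <;> simp [h]
      _ = (K.card : ℤ) := by simp [hcard]
  · have h1 : ∑ y ∈ G, t y - (K.card : ℤ) = ∑ y ∈ G, (t y - 1) := by
      rw [Finset.sum_sub_distrib]
      simp [hcard]
    rw [h1]
    refine Finset.even_sum _ ?_
    intro y _
    rcases ht y with h | h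
    · simp [h]
    · rw [h]; decide
  · have h1 := Rel_main τ h2 a K hK s t hst hs1 hs2 (fun x : ZMod n => x)
    rw [h1, Finset.sum_smul]
    refine Finset.sum_congr rfl fun y _ => ?_
    simp
  · intro h hh
    have h1 := Rel_main τ h2 a K hK s t hst hs1 hs2 h
    simp only [smul_eq_mul] at h1
    rw [h1]
    refine Finset.sum_eq_zero fun y _ => ?_
    rw [hh, sub_self, mul_zero]

end Pool.CTS
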