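import Pool.Agent.CTS.Defs
import Pool.Agent.CTS.Rel
import Pool.Agent.CTS.Bd

open Finset

namespace Pool.CTS

theorem low_split {n : ℕ} {a v : ZMod n} (M : List (ℤ × ZMod n))
    (hM : ∀ p ∈ M, (p.1 = 1 ∨ p.1 = -1) ∧ OnLine a v p.2) :
    ∃ u d : List (ZMod n), (∀ b ∈ u, OnLine a v b) ∧ (∀ b ∈ d, OnLine a v b) ∧
      (u.length : ℤ) - d.length = (M.map Prod.fst).sum ∧ u.length + d.length = M.length ∧
      u.sum - d.sum = (M.map fun p => p.1 • p.2).sum ∧
      ∀ w : ZMod n → ℝ, (u.map w).sum + (d.map w).sum = (M.map fun p => w p.2).sum := by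
  induction M with
  | nil => exact ⟨[], [], by simp, by simp, by simp, by simp, by simp, by simp⟩
  | cons p M ih =>
    obtain ⟨u, d, h1, h2, h3, h4, h5, h6⟩ := ih (fun p hp => hM p (List.mem_cons_of_mem _ hp))
    obtain ⟨hp, hl⟩ := hM p List.mem_cons_self
    rcases hp with hp | hp
    · refine ⟨p.2 :: u, d, ?_, h2, ?_, ?_, ?_, ?_⟩
      · intro b hb
        rcases List.mem_cons.1 hb with rfl | hb
        · exact hl
        · exact h1 b hb
      · rw [List.map_cons, List.sum_cons, ← h3, hp, List.length_cons]; push_cast; ring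
      · rw [List.length_cons, List.length_cons, ← h4]; ring
      · rw [List.map_cons, List.sum_cons, List.sum_cons, ← h5, hp, one_smul]; ring
      · intro w
        rw [List.map_cons, List.sum_cons, List.map_cons, List.sum_cons, ← h6 w]; ring
    · refine ⟨u, p.2 :: d, h1, ?_, ?_, ?_, ?_, ?_⟩
      · intro b hb
        rcases List.mem_cons.1 hb with rfl | hb
        · exact hl
        · exact h2 b hb
      · rw [List.map_cons, List.sum_cons, ← h3, hp, List.length_cons]; push_cast; ring
      · rw [List.length_cons, List.length_cons, ← h4]; ring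
      · rw [List.map_cons, List.sum_cons, List.sum_cons, ← h5, hp, neg_smul, one_smul]; ring
      · intro w
        rw [List.map_cons, List.sum_cons, List.map_cons, List.sum_cons, ← h6 w]; ring

theorem low_collect {n : ℕ} {a v : ZMod n} (K : Finset (ZMod n)) (L : ZMod n → List (ℤ × ZMod n))
    (s : ZMod n → ℤ) (hs : ∀ x, s x = 1 ∨ s x = -1)
    (hL : ∀ x ∈ K, ∀ p ∈ L x, (p.1 = 1 ∨ p.1 = -1) ∧ OnLine a v p.2) :
    ∃ u d : List (ZMod n), (∀ b ∈ u, OnLine a v b) ∧ (∀ b ∈ d, OnLine a v b) ∧
      (u.length : ℤ) - d.length = ∑ x ∈ K, s x * ((L x).map Prod.fst).sum ∧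
      u.length + d.length = ∑ x ∈ K, (L x).length ∧
      u.sum - d.sum = ∑ x ∈ K, s x • ((L x).map fun p => p.1 • p.2).sum ∧
      ∀ w : ZMod n → ℝ, (u.map w).sum + (d.map w).sum =
        ∑ x ∈ K, ((L x).map fun p => w p.2).sum := by
  classical
  induction K using Finset.induction_on with
  | empty => exact ⟨[], [], by simp, by simp, by simp, by simp, by simp, by simp⟩
  | insert x K hx ih =>
    obtain ⟨u, d, h1, h2, h3, h4, h5, h6⟩ := ih (fun y hy => hL y (Finset.mem_insert_of_mem hy))
    obtain ⟨u', d', k1, k2, k3, k4, k5, k6⟩ := low_split (L x) (hL x (Finset.mem_insert_self x K))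
    rcases hs x with hsx | hsx
    · refine ⟨u' ++ u, d' ++ d, ?_, ?_, ?_, ?_, ?_, ?_⟩
      · intro b hb
        rcases List.mem_append.1 hb with hb | hb
        · exact k1 b hb
        · exact h1 b hb
      · intro b hb
        rcases List.mem_append.1 hb with hb | hb
        · exact k2 b hb
        · exact h2 b hb
      · rw [Finset.sum_insert hx, ← h3, ← k3, hsx, List.length_append, List.length_append]
        push_cast; ring
      · rw [Finset.sum_insert hx, ← h4, ← k4, List.length_append, List.length_append]; ring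
      · rw [Finset.sum_insert hx, ← h5, ← k5, hsx, one_smul, List.sum_append, List.sum_append]
        ring
      · intro w
        rw [Finset.sum_insert hx, ← h6 w, ← k6 w, List.map_append, List.map_append,
          List.sum_append, List.sum_append]
        ring
    · refine ⟨d' ++ u, u' ++ d, ?_, ?_, ?_, ?_, ?_, ?_⟩
      · intro b hb
        rcases List.mem_append.1 hb with hb | hb
        · exact k2 b hb
        · exact h1 b hb
      · intro b hb
        rcases List.mem_append.1 hb with hb | hb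
        · exact k1 b hb
        · exact h2 b hb
      · rw [Finset.sum_insert hx, ← h3, ← k3, hsx, List.length_append, List.length_append]
        push_cast; ring
      · rw [Finset.sum_insert hx, ← h4, ← k4, List.length_append, List.length_append]; ring
      · rw [Finset.sum_insert hx, ← h5, ← k5, hsx, neg_smul, one_smul, List.sum_append,
          List.sum_append]
        ring
      · intro w
        rw [Finset.sum_insert hx, ← h6 w, ← k6 w, List.map_append, List.map_append,
          List.sum_append, List.sum_append]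
        ring

theorem low_next_apply {n : ℕ} [NeZero n] (f : ZMod n ≃ ZMod n) (x : ZMod n) :
    next f x = f (f.symm x + 1) := by
  simp [next]

theorem low_next_f {n : ℕ} [NeZero n] (f : ZMod n ≃ ZMod n) (i : ZMod n) :
    next f (f i) = f (i + 1) := by
  simp [next]

theorem low_cost {n : ℕ} [NeZero n] (c : ZMod n → ℝ) (f : ZMod n ≃ ZMod n) :
    tourCost c f = ∑ x, c (next f x - x) := by
  unfold tourCost
  rw [← Equiv.sum_comp f (fun x => c (next f x - x))]
  apply Finset.sum_congr rfl
  intro i _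
  rw [low_next_f]

theorem low_h2 {n : ℕ} [NeZero n] (hn : 3 ≤ n) (f : ZMod n ≃ ZMod n) (x : ZMod n) :
    next f (next f x) ≠ x := by
  intro h
  obtain ⟨i, rfl⟩ := f.surjective x
  rw [low_next_f, low_next_f] at h
  have h2 := f.injective h
  have h3 : ((2 : ℕ) : ZMod n) = 0 := by
    push_cast
    linear_combination h2
  rw [ZMod.natCast_eq_zero_iff] at h3
  exact absurd (Nat.le_of_dvd (by norm_num) h3) (by omega)

theorem low_ne {n : ℕ} [NeZero n] (hn : 3 ≤ n) (f : ZMod n ≃ ZMod n) (x : ZMod n) :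
    next f x ≠ x := by
  intro h
  exact low_h2 hn f x (by rw [h, h])

theorem low_trans {n : ℕ} [NeZero n] (f : ZMod n ≃ ZMod n) (S : Set (ZMod n)) (hS : S.Nonempty)
    (h : ∀ x ∈ S, next f x ∈ S) : S = Set.univ := by
  obtain ⟨x, hx⟩ := hS
  obtain ⟨i, rfl⟩ := f.surjective x
  have key : ∀ k : ℕ, f (i + k) ∈ S := by
    intro k
    induction k with
    | zero => simpa using hx
    | succ k ih =>
      have := h _ ih
      rw [low_next_f] at this
      rw [Nat.cast_succ, ← add_assoc]
      exact this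
  rw [Set.eq_univ_iff_forall]
  intro y
  obtain ⟨j, rfl⟩ := f.surjective y
  have := key (j - i).val
  rw [ZMod.natCast_val, ZMod.cast_id', id] at this
  simpa using this

theorem low_q_line {n g r : ℕ} {a v : ZMod n} (C : Coord n g r a v) {b : ZMod n}
    (hb : OnLine a v b) : C.q b = 1 := by
  obtain ⟨k, rfl⟩ := hb
  rw [map_add, map_zsmul, C.qa, C.qv, smul_zero, add_zero]

theorem low_q_surj {n g r : ℕ} [NeZero g] {a v : ZMod n} (C : Coord n g r a v) :
    Function.Surjective C.q := by
  intro y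
  refine ⟨y.val • v, ?_⟩
  rw [map_nsmul, C.qv, nsmul_eq_mul, mul_one, ZMod.natCast_val, ZMod.cast_id', id]

theorem low_q_list {n g r : ℕ} {a v : ZMod n} (C : Coord n g r a v) (L : List (ℤ × ZMod n))
    (hL : ∀ p ∈ L, OnLine a v p.2) :
    C.q (L.map fun p => p.1 • p.2).sum = (((L.map Prod.fst).sum : ℤ) : ZMod g) := by
  induction L with
  | nil => simp
  | cons p L ih =>
    rw [List.map_cons, List.sum_cons, map_add, ih (fun p hp => hL p (List.mem_cons_of_mem _ hp)),
      List.map_cons, List.sum_cons, map_zsmul, low_q_line C (hL p List.mem_cons_self)]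
    push_cast
    simp

theorem low_len_le {n : ℕ} (w : ZMod n → ℝ) (m : ℝ) (L : List (ℤ × ZMod n))
    (hL : ∀ p ∈ L, m ≤ w p.2) : (L.length : ℝ) * m ≤ (L.map fun p => w p.2).sum := by
  induction L with
  | nil => simp
  | cons p L ih =>
    have h1 := ih (fun p hp => hL p (List.mem_cons_of_mem _ hp))
    have h2 := hL p List.mem_cons_self
    rw [List.map_cons, List.sum_cons, List.length_cons]
    push_cast
    linarith

theorem low_sign_list (y : ℤ) : ∃ l : List ℤ, (∀ e ∈ l, e = 1 ∨ e = -1) ∧ l.sum = y ∧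
    (l.length : ℤ) = |y| := by
  rcases le_or_gt 0 y with hy | hy
  · refine ⟨List.replicate y.natAbs 1, ?_, ?_, ?_⟩
    · intro e he
      exact Or.inl (List.eq_of_mem_replicate he)
    · rw [List.sum_replicate, nsmul_eq_mul, mul_one]
      omega
    · rw [List.length_replicate, Int.natCast_natAbs]
  · refine ⟨List.replicate y.natAbs (-1), ?_, ?_, ?_⟩
    · intro e he
      exact Or.inr (List.eq_of_mem_replicate he)
    · rw [List.sum_replicate, nsmul_eq_mul]
      omega
    · rw [List.length_replicate, Int.natCast_natAbs]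

theorem lower_bound {n g r : ℕ} [NeZero n] (hn : 3 ≤ n) {a v : ZMod n} (C : Coord n g r a v)
    (c : ZMod n → ℝ) (hc : ∀ x, c (-x) = c x) (hmin : ∀ x, x ≠ 0 → c a ≤ c x) (m : ℝ)
    (hm : IsLeast {z : ℝ | ∃ b, OnLine a v b ∧ z = c b - c a} m)
    (H : ∀ x, x ≠ 0 → x ≠ a → x ≠ -a →
      Dominated (fun z => c z - c a) a v x ∨ Expensive (fun z => c z - c a) g m a v x)
    (f : ZMod n ≃ ZMod n) :
    n * c a + 2 * ((g : ℝ) - 1) * m ≤ tourCost c f ∨
      ∃ (i : ℕ) (u d : List (ZMod n)) (Γ : ℤ), 2 * i + 3 ≤ g ∧ Pattern g a v i u d Γ ∧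
        n * c a + (u.map fun b => c b - c a).sum + (d.map fun b => c b - c a).sum
          ≤ tourCost c f := by
  classical
  have hg2 := C.hg
  have : NeZero g := ⟨by omega⟩
  have : Fact (1 < g) := ⟨by omega⟩
  obtain ⟨τ, hτ⟩ : ∃ τ, τ = next f := ⟨_, rfl⟩
  have h2 : ∀ x, τ (τ x) ≠ x := by rw [hτ]; exact low_h2 hn f
  have hne : ∀ x, τ x ≠ x := by rw [hτ]; exact low_ne hn f
  have htr : ∀ S : Set (ZMod n), S.Nonempty → (∀ x ∈ S, τ x ∈ S) → S = Set.univ := by
    rw [hτ]; exact low_trans f
  have hline : ∀ b, OnLine a v b → m ≤ c b - c a := fun b hb => hm.2 ⟨b, hb, rfl⟩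
  have hm0 : 0 ≤ m := by
    obtain ⟨b, hb, hb'⟩ := hm.1
    have hb0 : b ≠ 0 := by
      rintro rfl
      have := low_q_line C hb
      rw [map_zero] at this
      exact zero_ne_one this
    rw [hb']
    linarith [hmin b hb0]
  obtain ⟨w, hw⟩ : ∃ w : ZMod n → ℝ, ∀ x, w x = c (τ x - x) - c a := ⟨_, fun x => rfl⟩
  have hcost : tourCost c f = n * c a + ∑ x, w x := by
    rw [low_cost, ← hτ, Finset.sum_congr rfl (fun x _ => hw x), Finset.sum_sub_distrib]
    simp [ZMod.card]
  obtain ⟨K, hK⟩ : ∃ K : Finset (ZMod n), ∀ x, x ∈ K ↔ τ x ≠ x + a ∧ τ x ≠ x - a :=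
    ⟨Finset.univ.filter fun x => τ x ≠ x + a ∧ τ x ≠ x - a, by intro x; simp⟩
  have hwK : ∀ x, x ∉ K → w x = 0 ∧ C.q (τ x) = C.q x := by
    intro x hx
    rw [hK] at hx
    by_cases h : τ x = x + a
    · rw [hw, h, map_add, C.qa]
      simp
    · have h' : τ x = x - a := by
        by_contra h'
        exact hx ⟨h, h'⟩
      rw [hw, h', map_sub, C.qa]
      simp [hc]
  have hd : ∀ x ∈ K, τ x - x ≠ 0 ∧ τ x - x ≠ a ∧ τ x - x ≠ -a := by
    intro x hx
    rw [hK] at hx
    refine ⟨fun h => hne x (sub_eq_zero.1 h), fun h => hx.1 ?_, fun h => hx.2 ?_⟩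
    · rw [← h]; ring
    · rw [sub_eq_iff_eq_add] at h
      rw [h]; ring
  have hqd : ∀ x, C.q (τ x) = C.q x + C.q (τ x - x) := by
    intro x
    rw [← map_add]
    congr 1
    ring
  have hsurj := low_q_surj C
  -- the length function for a dominated displacement
  have hdom : ∀ x, Dominated (fun z => c z - c a) a v (τ x - x) →
      ∃ (L : List (ℤ × ZMod n)) (T : ℤ), (∀ p ∈ L, (p.1 = 1 ∨ p.1 = -1) ∧ OnLine a v p.2) ∧
        |T| ≤ (L.length : ℤ) - 1 ∧ Even (T - ((L.length : ℤ) - 1)) ∧
        τ x - x = (L.map fun p => p.1 • p.2).sum + T • a ∧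
        (L.map fun p => c p.2 - c a).sum ≤ w x ∧
        C.q (τ x) = C.q x + (((L.map Prod.fst).sum : ℤ) : ZMod g) := by
    rintro x ⟨L, T, -, h1, h3, h4, h5, h6⟩
    refine ⟨L, T, h1, h3, h4, h5, ?_, ?_⟩
    · rw [hw]; exact h6
    · rw [hqd, h5, map_add, low_q_list C L (fun p hp => (h1 p hp).2), map_zsmul, C.qa, smul_zero,
        add_zero]
  by_cases hB : ∀ x ∈ K, Dominated (fun z => c z - c a) a v (τ x - x)
  · -- Case B
    have hB' : ∀ x, ∃ (L : List (ℤ × ZMod n)) (T : ℤ),
        (∀ p ∈ L, (p.1 = 1 ∨ p.1 = -1) ∧ OnLine a v p.2) ∧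
        (x ∈ K → |T| ≤ (L.length : ℤ) - 1 ∧ Even (T - ((L.length : ℤ) - 1)) ∧
          τ x - x = (L.map fun p => p.1 • p.2).sum + T • a) ∧
        (L.map fun p => c p.2 - c a).sum ≤ w x ∧
        C.q (τ x) = C.q x + (((L.map Prod.fst).sum : ℤ) : ZMod g) ∧ (x ∉ K → L = []) := by
      intro x
      by_cases hx : x ∈ K
      · obtain ⟨L, T, h1, h3, h4, h5, h6, h7⟩ := hdom x (hB x hx)
        exact ⟨L, T, h1, fun _ => ⟨h3, h4, h5⟩, h6, h7, fun h => absurd hx h⟩
      · obtain ⟨h1, h3⟩ := hwK x hx
        refine ⟨[], 0, by simp, fun h => absurd h hx, by simp [h1], by simp [h3], fun _ => rfl⟩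
    choose L T hL1 hL2 hL3 hL4 hL5 using hB'
    have hstep : ∀ x, C.q (τ x) = C.q x + (((((L x).map Prod.fst)).sum : ℤ) : ZMod g) := hL4
    have hlen : ∀ x, ((L x).length : ℝ) * m ≤ w x := by
      intro x
      refine (low_len_le (fun z => c z - c a) m (L x) ?_).trans (hL3 x)
      intro p hp
      exact hline _ (hL1 x p hp).2
    have hentries : ∀ x, ∀ e ∈ (L x).map Prod.fst, e = 1 ∨ e = -1 := by
      intro x e he
      obtain ⟨p, hp, rfl⟩ := List.mem_map.1 he
      exact (hL1 x p hp).1
    obtain ⟨s, Γ, hs, hΓ, hΓe, hrel, hper⟩ := chord_relation τ h2 a K hK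
    have hbal : ∀ h : ZMod g → ℤ, ∑ x, s x * (h (C.q (τ x)) - h (C.q x)) = 0 := by
      intro h
      rw [← hper (fun x => h (C.q x)) (by intro x; simp only [map_add, C.qa, add_zero])]
      symm
      apply Finset.sum_subset (Finset.subset_univ K)
      intro x _ hx
      rw [(hwK x hx).2]
      ring
    have hwind := winding g hg2 τ htr C.q hsurj (fun x => (L x).map Prod.fst) hentries hstep s hs
      hbal
    simp only [List.length_map] at hwind
    by_cases hN : 2 * (g - 1) ≤ ∑ x, (L x).length
    · left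
      rw [hcost]
      have h1 : ((∑ x, (L x).length : ℕ) : ℝ) * m ≤ ∑ x, w x := by
        push_cast
        rw [Finset.sum_mul]
        exact Finset.sum_le_sum fun x _ => hlen x
      have h3 : ((2 * (g - 1) : ℕ) : ℝ) ≤ ((∑ x, (L x).length : ℕ) : ℝ) := by exact_mod_cast hN
      have h4 : ((2 * (g - 1) : ℕ) : ℝ) = 2 * ((g : ℝ) - 1) := by
        rw [Nat.cast_mul, Nat.cast_sub (by omega)]
        norm_num
      rw [h4] at h3
      have := mul_le_mul_of_nonneg_right h3 hm0
      linarith
    · right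
      have hwind' := hwind.resolve_left hN
      -- normalise the sign
      obtain ⟨s', Γ', hs', hΓ', hΓe', hrel', hsum'⟩ : ∃ (s' : ZMod n → ℤ) (Γ' : ℤ),
          (∀ x, s' x = 1 ∨ s' x = -1) ∧ |Γ'| ≤ K.card ∧ Even (Γ' - K.card) ∧
          ∑ x ∈ K, s' x • (τ x - x) = Γ' • a ∧
          ∑ x, s' x * ((L x).map Prod.fst).sum = g := by
        rcases hwind' with h | h
        · exact ⟨s, Γ, hs, hΓ, hΓe, hrel, h⟩
        · refine ⟨fun x => - s x, -Γ, ?_, by rwa [abs_neg], ?_, ?_, ?_⟩
          · intro x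
            rcases hs x with h | h <;> simp [h]
          · obtain ⟨k, hk⟩ := hΓe
            exact ⟨-k - K.card, by linarith⟩
          · simp only [neg_smul, Finset.sum_neg_distrib, hrel]
          · simp only [neg_mul, Finset.sum_neg_distrib, h, neg_neg]
      obtain ⟨u, d, hu, hd', hdiff, htot, hsub, hwt⟩ := low_collect K L s' hs'
        (fun x _ => hL1 x)
      have hzero : ∀ x, x ∉ K → L x = [] := hL5
      have e1 : ∑ x ∈ K, s' x * ((L x).map Prod.fst).sum = g := by
        rw [← hsum']
        apply Finset.sum_subset (Finset.subset_univ K)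
        intro x _ hx
        rw [hzero x hx]
        simp
      have e2 : ∑ x ∈ K, (L x).length = ∑ x, (L x).length := by
        apply Finset.sum_subset (Finset.subset_univ K)
        intro x _ hx
        rw [hzero x hx]
        simp
      rw [e1] at hdiff
      have hulen : u.length = g + d.length := by omega
      have hNN : u.length + d.length < 2 * (g - 1) := by
        rw [htot, e2]
        omega
      have hT : ∑ x ∈ K, (|T x| : ℤ) ≤ ∑ x ∈ K, (((L x).length : ℤ) - 1) :=
        Finset.sum_le_sum fun x hx => (hL2 x hx).1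
      have hTs : |∑ x ∈ K, s' x * T x| ≤ ∑ x ∈ K, (|T x| : ℤ) := by
        refine (Finset.abs_sum_le_sum_abs _ _).trans (le_of_eq ?_)
        apply Finset.sum_congr rfl
        intro x _
        rw [abs_mul]
        rcases hs' x with h | h <;> simp [h]
      have hcard : ∑ x ∈ K, (((L x).length : ℤ) - 1) = (u.length : ℤ) + d.length - K.card := by
        rw [Finset.sum_sub_distrib]
        have : ((u.length + d.length : ℕ) : ℤ) = ((∑ x ∈ K, (L x).length : ℕ) : ℤ) := by rw [htot]
        push_cast at this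
        rw [this]
        simp
      refine ⟨d.length, u, d, ∑ x ∈ K, s' x * T x - Γ', by omega, ⟨hulen, rfl, hu, hd', ?_, ?_, ?_⟩,
        ?_⟩
      · have h1 := abs_sub (∑ x ∈ K, s' x * T x) Γ'
        have h3 : (u.length : ℤ) = g + d.length := by exact_mod_cast hulen
        linarith
      · have hev : Even (∑ x ∈ K, s' x * T x - ∑ x ∈ K, (((L x).length : ℤ) - 1)) := by
          rw [← Finset.sum_sub_distrib]
          apply Finset.even_sum
          intro x hx
          obtain ⟨k, hk⟩ := (hL2 x hx).2.1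
          rcases hs' x with h | h
          · rw [h]; exact ⟨k, by linarith⟩
          · rw [h]; exact ⟨k - T x, by linarith⟩
        have h3 : (u.length : ℤ) = g + d.length := by exact_mod_cast hulen
        obtain ⟨k, hk⟩ := hev
        obtain ⟨k', hk'⟩ := hΓe'
        rw [hcard] at hk
        exact ⟨k - k' + d.length - K.card, by linarith⟩
      · have h1 : ∑ x ∈ K, s' x • ((L x).map fun p => p.1 • p.2).sum =
            ∑ x ∈ K, s' x • (τ x - x) - (∑ x ∈ K, s' x * T x) • a := by
          rw [Finset.sum_smul, ← Finset.sum_sub_distrib]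
          apply Finset.sum_congr rfl
          intro x hx
          rw [(hL2 x hx).2.2, smul_add, smul_smul, add_sub_cancel_right]
        rw [hsub, h1, hrel', sub_smul]
        ring
      · have h1 : ∑ x ∈ K, ((L x).map fun p => c p.2 - c a).sum ≤ ∑ x, w x := by
          rw [← Finset.sum_subset (Finset.subset_univ K) (fun x _ hx => (hwK x hx).1)]
          exact Finset.sum_le_sum fun x _ => hL3 x
        have h3 := hwt (fun b => c b - c a)
        rw [hcost]
        linarith
  · -- Case A
    left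
    push Not at hB
    obtain ⟨x₀, hx₀, hnd⟩ := hB
    have hall : ∀ x, ∃ l : List ℤ, (∀ e ∈ l, e = 1 ∨ e = -1) ∧
        C.q (τ x) = C.q x + ((l.sum : ℤ) : ZMod g) ∧
        (l.length : ℝ) * m + (if x = x₀ then ((g : ℝ) - 2) * m else 0) ≤ w x := by
      intro x
      have hexp : Expensive (fun z => c z - c a) g m a v (τ x - x) →
          ∃ l : List ℤ, (∀ e ∈ l, e = 1 ∨ e = -1) ∧
            C.q (τ x) = C.q x + ((l.sum : ℤ) : ZMod g) ∧
            (l.length : ℝ) * m + ((g : ℝ) - 2) * m ≤ w x := by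
        rintro ⟨y, k, h1, h3⟩
        obtain ⟨l, hl1, hl2, hl3⟩ := low_sign_list y
        refine ⟨l, hl1, ?_, ?_⟩
        · rw [hqd, h1, map_add, map_zsmul, map_zsmul, C.qa, C.qv, hl2]
          simp
        · rw [hw]
          have h4 : (l.length : ℝ) = |(y : ℝ)| := by exact_mod_cast hl3
          rw [h4]
          linarith
      have hg2' : (0 : ℝ) ≤ ((g : ℝ) - 2) * m := by
        apply mul_nonneg _ hm0
        have : (2 : ℝ) ≤ g := by exact_mod_cast hg2
        linarith
      by_cases hxx : x = x₀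
      · rw [if_pos hxx]
        apply hexp
        rw [hxx]
        obtain ⟨h1, h3, h4⟩ := hd x₀ hx₀
        exact (H _ h1 h3 h4).resolve_left hnd
      · rw [if_neg hxx]
        by_cases hx : x ∈ K
        · obtain ⟨h1, h3, h4⟩ := hd x hx
          rcases H _ h1 h3 h4 with h | h
          · obtain ⟨L, T, k1, -, -, -, k5, k6⟩ := hdom x h
            refine ⟨L.map Prod.fst, ?_, k6, ?_⟩
            · intro e he
              obtain ⟨p, hp, rfl⟩ := List.mem_map.1 he
              exact (k1 p hp).1
            · rw [List.length_map, add_zero]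
              exact (low_len_le (fun z => c z - c a) m L
                (fun p hp => hline _ (k1 p hp).2)).trans k5
          · obtain ⟨l, k1, k2, k3⟩ := hexp h
            exact ⟨l, k1, k2, by linarith⟩
        · obtain ⟨h1, h3⟩ := hwK x hx
          exact ⟨[], by simp, by simp [h3], by simp [h1]⟩
    choose l hl1 hl2 hl3 using hall
    have hlen := length_ge g hg2 τ htr C.q hsurj l hl1 hl2
    have h1 : ∑ x, ((l x).length * m + (if x = x₀ then ((g : ℝ) - 2) * m else 0)) ≤ ∑ x, w x :=
      Finset.sum_le_sum fun x _ => hl3 x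
    rw [Finset.sum_add_distrib, ← Finset.sum_mul, Finset.sum_ite_eq' Finset.univ x₀] at h1
    simp only [Finset.mem_univ, if_true] at h1
    have h3 : (g : ℝ) ≤ ∑ x, ((l x).length : ℝ) := by exact_mod_cast hlen
    have h4 := mul_le_mul_of_nonneg_right h3 hm0
    rw [hcost]
    linarith

end Pool.CTS
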