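import Pool.Agent.CTS.Defs
import Pool.Agent.CTS.Wrd
import Pool.Agent.CTS.Blk

open Finset

namespace Pool.CTS

/-- the word made of single blocks -/
theorem Wnd_singles {n g r : ℕ} {a v : ZMod n} (C : Coord n g r a v)
    (c : ZMod n → ℝ) (hc : ∀ x, c (-x) = c x) (S : List (ℤ × ZMod n))
    (hS : ∀ p ∈ S, (p.1 = 1 ∨ p.1 = -1) ∧ OnLine a v p.2) :
    ∃ w : List (ZMod n), Covers C w S.length ∧ w.length = r * S.length ∧
      w.sum = (S.map fun p => p.2 - p.1 • a).sum ∧
      (w.map c).sum = r * S.length * c a + (S.map fun p => c p.2 - c a).sum := by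
  induction S with
  | nil =>
    refine ⟨[], ⟨by simp, ?_⟩, by simp, by simp, by simp⟩
    rintro x ⟨k, hk, -⟩
    simp at hk
  | cons p S ih =>
    obtain ⟨w, hw1, hw2, hw3, hw4⟩ := ih (fun q hq => hS q (List.mem_cons_of_mem _ hq))
    obtain ⟨hp1, hp2⟩ := hS p List.mem_cons_self
    obtain ⟨hb1, hb2, hb3⟩ := single_block C p.1 hp1 p.2 hp2
    have hca : c (p.1 • a) = c a := by
      rcases hp1 with h | h
      · rw [h, one_zsmul]
      · rw [h, neg_smul, one_zsmul, hc]
    have hr : 1 ≤ r := le_trans (by norm_num) C.hr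
    refine ⟨(List.replicate (r - 1) (p.1 • a) ++ [p.2]) ++ w, ?_, ?_, ?_, ?_⟩
    · have := Covers.append hb1 hw1
      rwa [add_comm 1 S.length] at this
    · rw [List.length_append, hb2, hw2, List.length_cons]; ring
    · rw [List.sum_append, hb3, hw3, List.map_cons, List.sum_cons]
    · rw [List.map_append, List.sum_append, hw4, List.map_append, List.sum_append,
        List.map_replicate, List.sum_replicate, hca, List.map_cons, List.map_nil, List.sum_cons,
        List.sum_nil, List.map_cons, List.sum_cons, List.length_cons, nsmul_eq_mul,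
        Nat.cast_sub hr]
      push_cast
      ring

/-- the word of pairs followed by singles -/
theorem Wnd_pairs {n g r : ℕ} {a v : ZMod n} (C : Coord n g r a v)
    (c : ZMod n → ℝ) (hc : ∀ x, c (-x) = c x) (S : List (ℤ × ZMod n))
    (hS : ∀ p ∈ S, (p.1 = 1 ∨ p.1 = -1) ∧ OnLine a v p.2)
    (P : List (ℤ × ZMod n × ZMod n × ZMod n × ZMod n))
    (hP : ∀ p ∈ P, (p.1 = 1 ∨ p.1 = -1) ∧ OnLine a v p.2.1 ∧ OnLine a v p.2.2.1 ∧
      OnLine a v p.2.2.2.1 ∧ OnLine a v p.2.2.2.2 ∧ p.2.1 - p.2.2.2.1 ≠ (2 * p.1) • a ∧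
      p.2.2.1 - p.2.2.2.1 ≠ (2 * p.1) • a) :
    ∃ w : List (ZMod n), Covers C w (2 * P.length + S.length) ∧
      w.length = r * (2 * P.length + S.length) ∧
      w.sum = (P.map fun p => p.2.1 + p.2.2.1 - p.2.2.2.1 + p.2.2.2.2 - (4 * p.1) • a).sum +
        (S.map fun p => p.2 - p.1 • a).sum ∧
      (w.map c).sum = r * (2 * P.length + S.length) * c a +
        (P.map fun p => (c p.2.1 - c a) + (c p.2.2.1 - c a) + (c p.2.2.2.1 - c a) +
          (c p.2.2.2.2 - c a)).sum + (S.map fun p => c p.2 - c a).sum := by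
  induction P with
  | nil =>
    obtain ⟨w, hw1, hw2, hw3, hw4⟩ := Wnd_singles C c hc S hS
    refine ⟨w, by simpa using hw1, by simpa using hw2, by simpa using hw3, by simpa using hw4⟩
  | cons p P ih =>
    obtain ⟨w, hw1, hw2, hw3, hw4⟩ := ih (fun q hq => hP q (List.mem_cons_of_mem _ hq))
    obtain ⟨hp1, hx, hy, hz, hb, hxz, hyz⟩ := hP p List.mem_cons_self
    obtain ⟨w', h1, h2, h3, h4⟩ :=
      pair_block C p.1 hp1 p.2.1 p.2.2.1 p.2.2.2.1 p.2.2.2.2 hx hy hz hb hxz hyz
    refine ⟨w' ++ w, ?_, ?_, ?_, ?_⟩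
    · have := Covers.append h1 hw1
      have e : 2 + (2 * P.length + S.length) = 2 * (p :: P).length + S.length := by
        rw [List.length_cons]; ring
      rwa [e] at this
    · rw [List.length_append, h2, hw2, List.length_cons]; ring
    · rw [List.sum_append, h3, hw3, List.map_cons, List.sum_cons]; abel
    · rw [List.map_append, List.sum_append, h4 c hc, hw4, List.map_cons, List.sum_cons,
        List.length_cons]
      push_cast
      ring

/-- the word of `i` pairs and `g - 2 i` singles; no degeneracy -/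
theorem winding_tour_aux {n g r : ℕ} [NeZero n] {a v : ZMod n} (C : Coord n g r a v)
    (c : ZMod n → ℝ) (hc : ∀ x, c (-x) = c x)
    (P : List (ℤ × ZMod n × ZMod n × ZMod n × ZMod n))
    (S : List (ℤ × ZMod n))
    (hP : ∀ p ∈ P, (p.1 = 1 ∨ p.1 = -1) ∧ OnLine a v p.2.1 ∧ OnLine a v p.2.2.1 ∧
      OnLine a v p.2.2.2.1 ∧ OnLine a v p.2.2.2.2 ∧ p.2.1 - p.2.2.2.1 ≠ (2 * p.1) • a ∧
      p.2.2.1 - p.2.2.2.1 ≠ (2 * p.1) • a)
    (hS : ∀ p ∈ S, (p.1 = 1 ∨ p.1 = -1) ∧ OnLine a v p.2)
    (hlen : 2 * P.length + S.length = g)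
    (hsum : (P.map fun p => p.2.1 + p.2.2.1 - p.2.2.2.1 + p.2.2.2.2 - (4 * p.1) • a).sum +
      (S.map fun p => p.2 - p.1 • a).sum = 0) :
    ∃ f : ZMod n ≃ ZMod n, tourCost c f = n * c a +
      (P.map fun p => (c p.2.1 - c a) + (c p.2.2.1 - c a) + (c p.2.2.2.1 - c a) +
        (c p.2.2.2.2 - c a)).sum + (S.map fun p => c p.2 - c a).sum := by
  obtain ⟨w, hw1, hw2, hw3, hw4⟩ := Wnd_pairs C c hc S hS P hP
  rw [hlen] at hw1 hw2
  obtain ⟨f, hf⟩ := tour_of_covers C c w (by rw [hw2, mul_comm, C.hn]) (by rw [hw3, hsum]) hw1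
  refine ⟨f, ?_⟩
  rw [hf, hw4]
  have e : ((r : ℝ) * (2 * P.length + S.length)) = n := by
    have : r * (2 * P.length + S.length) = n := by rw [hlen, mul_comm, C.hn]
    exact_mod_cast this
  rw [e]

/-- pairing signs with chords -/
theorem Wnd_build0 {n : ℕ} (a : ZMod n) (w : ZMod n → ℝ) (F : List ℤ) :
    ∀ u : List (ZMod n), u.length = F.length → ∃ S : List (ℤ × ZMod n),
      S.length = F.length ∧ (∀ p ∈ S, p.1 ∈ F ∧ p.2 ∈ u) ∧
      (S.map fun p => p.2 - p.1 • a).sum = u.sum - F.sum • a ∧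
      (S.map fun p => w p.2).sum = (u.map w).sum := by
  induction F with
  | nil =>
    intro u hu
    have : u = [] := by simpa using hu
    subst this
    exact ⟨[], by simp, by simp, by simp, by simp⟩
  | cons e F ih =>
    intro u hu
    match u, hu with
    | x :: u, hu =>
      obtain ⟨S, h1, h2, h3, h4⟩ := ih u (by simpa using hu)
      refine ⟨(e, x) :: S, by simp [h1], ?_, ?_, ?_⟩
      · intro p hp
        rcases List.mem_cons.1 hp with rfl | hp
        · exact ⟨List.mem_cons_self, List.mem_cons_self⟩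
        · exact ⟨List.mem_cons_of_mem _ (h2 p hp).1, List.mem_cons_of_mem _ (h2 p hp).2⟩
      · rw [List.map_cons, List.sum_cons, h3, List.sum_cons, List.sum_cons, add_smul]
        abel
      · rw [List.map_cons, List.sum_cons, h4, List.map_cons, List.sum_cons]

theorem Wnd_build {n : ℕ} (a : ZMod n) (w : ZMod n → ℝ) (F : List ℤ) (E : List ℤ) :
    ∀ u d : List (ZMod n), d.length = E.length → u.length = 3 * E.length + F.length →
      ∃ (P : List (ℤ × ZMod n × ZMod n × ZMod n × ZMod n)) (S : List (ℤ × ZMod n)),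
      P.length = E.length ∧ S.length = F.length ∧
      (∀ p ∈ P, p.1 ∈ E ∧ p.2.1 ∈ u ∧ p.2.2.1 ∈ u ∧ p.2.2.2.1 ∈ d ∧ p.2.2.2.2 ∈ u) ∧
      (∀ p ∈ S, p.1 ∈ F ∧ p.2 ∈ u) ∧
      (P.map fun p => p.2.1 + p.2.2.1 - p.2.2.2.1 + p.2.2.2.2 - (4 * p.1) • a).sum +
        (S.map fun p => p.2 - p.1 • a).sum = u.sum - d.sum - (4 * E.sum + F.sum) • a ∧
      (P.map fun p => w p.2.1 + w p.2.2.1 + w p.2.2.2.1 + w p.2.2.2.2).sum +
        (S.map fun p => w p.2).sum = (u.map w).sum + (d.map w).sum := by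
  induction E with
  | nil =>
    intro u d hd hu
    have : d = [] := by simpa using hd
    subst this
    obtain ⟨S, h1, h2, h3, h4⟩ := Wnd_build0 a w F u (by simpa using hu)
    refine ⟨[], S, by simp, h1, by simp, h2, ?_, ?_⟩
    · rw [List.map_nil, List.sum_nil, zero_add, h3]
      simp only [List.sum_nil, mul_zero, zero_add, sub_zero]
    · rw [List.map_nil, List.sum_nil, zero_add, h4, List.map_nil, List.sum_nil, add_zero]
  | cons e E ih =>
    intro u d hd hu
    match d, hd with
    | z :: d, hd =>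
      match u, hu with
      | [], hu => simp only [List.length_nil, List.length_cons] at hu; omega
      | [_], hu => simp at hu; omega
      | [_, _], hu => simp at hu; omega
      | x :: y :: b :: u, hu =>
        obtain ⟨P, S, h1, h2, h3, h4, h5, h6⟩ := ih u d (by simpa using hd)
          (by simp only [List.length_cons] at hu; omega)
        refine ⟨(e, x, y, z, b) :: P, S, by simp [h1], h2, ?_, ?_, ?_, ?_⟩
        · intro p hp
          rcases List.mem_cons.1 hp with rfl | hp
          · simp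
          · obtain ⟨k1, k2, k3, k4, k5⟩ := h3 p hp
            simp [k1, k2, k3, k4, k5]
        · intro p hp
          obtain ⟨k1, k2⟩ := h4 p hp
          simp [k1, k2]
        · rw [List.map_cons, List.sum_cons, add_assoc, h5]
          simp only [List.sum_cons]
          have e1 : (4 * (e + E.sum) + F.sum) • a = (4 * e) • a + (4 * E.sum + F.sum) • a := by
            rw [← add_smul]; congr 1; ring
          rw [e1]
          abel
        · rw [List.map_cons, List.sum_cons, add_assoc, h6]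
          simp only [List.map_cons, List.sum_cons]
          ring

theorem Wnd_sum_erase {n : ℕ} (u : List (ZMod n)) (x : ZMod n) (hx : x ∈ u) :
    (u.erase x).sum = u.sum - x := by
  have h := (List.perm_cons_erase hx).sum_eq
  rw [List.sum_cons] at h
  rw [h]; abel

theorem Wnd_map_sum_erase {n : ℕ} (w : ZMod n → ℝ) (u : List (ZMod n)) (x : ZMod n) (hx : x ∈ u) :
    ((u.erase x).map w).sum = (u.map w).sum - w x := by
  have h := ((List.perm_cons_erase hx).map w).sum_eq
  rw [List.map_cons, List.sum_cons] at h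
  rw [h]; ring

theorem winding_tour {n g r : ℕ} [NeZero n] {a v : ZMod n} (C : Coord n g r a v)
    (c : ZMod n → ℝ) (hc : ∀ x, c (-x) = c x) (hmin : ∀ b, OnLine a v b → c a ≤ c b)
    (i : ℕ) (u d : List (ZMod n)) (Γ : ℤ) (hi : i = 0 ∨ 2 * i + 3 ≤ g)
    (hp : Pattern g a v i u d Γ) :
    ∃ f : ZMod n ≃ ZMod n, tourCost c f ≤ n * c a + (u.map fun b => c b - c a).sum +
      (d.map fun b => c b - c a).sum := by
  induction i generalizing u d Γ with
  | zero =>
    obtain ⟨hu, hd, hul, -, hΓ, hev, hrel⟩ := hp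
    have hd0 : d = [] := by simpa using hd
    subst hd0
    -- signs with sum `-Γ`
    obtain ⟨k, hk⟩ := hev
    have hΓ' := abs_le.1 hΓ
    simp only [Nat.cast_zero, mul_zero, add_zero] at hΓ' hu
    obtain ⟨m, hm⟩ : ∃ m : ℕ, (m : ℤ) = -k := ⟨(-k).toNat, Int.toNat_of_nonneg (by omega)⟩
    -- Γ = g - 2m, so m signs +1 and g - m signs -1
    have hmg : m ≤ g := by omega
    let F : List ℤ := List.replicate m 1 ++ List.replicate (g - m) (-1)
    have hFl : F.length = g := by simp [F]; omega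
    have hFs : F.sum = -Γ := by
      simp only [F, List.sum_append, List.sum_replicate]
      simp only [nsmul_eq_mul]
      push_cast [Nat.cast_sub hmg]
      omega
    have hF : ∀ e ∈ F, e = 1 ∨ e = -1 := by
      intro e he
      simp only [F, List.mem_append, List.mem_replicate] at he
      rcases he with h | h
      · exact Or.inl h.2
      · exact Or.inr h.2
    obtain ⟨P, S, h1, h2, h3, h4, h5, h6⟩ := Wnd_build a (fun b => c b - c a) F [] u []
      (by simp) (by simp [hFl, hu])
    have hP0 : P = [] := by simpa using h1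
    subst hP0
    obtain ⟨f, hf⟩ := winding_tour_aux C c hc [] S (by simp)
      (fun p hp => ⟨hF _ (h4 p hp).1, hul _ (h4 p hp).2⟩) (by simp [h2, hFl]) (by
        rw [h5, hFs]
        simpa using hrel)
    refine ⟨f, ?_⟩
    rw [hf]
    simp only [List.map_nil, List.sum_nil, zero_add, add_zero] at h6 ⊢
    rw [h6]
  | succ i ih =>
    obtain ⟨hu, hd, hul, hdl, hΓ, hev, hrel⟩ := hp
    have hi3 : 2 * (i + 1) + 3 ≤ g := by omega
    obtain ⟨k, hk⟩ := hev
    have hΓ' := abs_le.1 hΓ
    push_cast at hΓ'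
    obtain ⟨j, hj, hj1, hj2⟩ : ∃ j : ℕ, j ≤ i + 1 ∧
        Γ - 4 * (i + 1) + 8 * j ≤ (g : ℤ) - 2 * (i + 1) ∧
        -((g : ℤ) - 2 * (i + 1)) ≤ Γ - 4 * (i + 1) + 8 * j := by
      obtain ⟨t, ht⟩ : ∃ t : ℕ, (t : ℤ) = -k + i + 1 := ⟨(-k + i + 1).toNat,
        Int.toNat_of_nonneg (by omega)⟩
      by_cases hc : t / 4 ≤ i + 1
      · exact ⟨t / 4, hc, by omega, by omega⟩
      · exact ⟨i + 1, le_rfl, by omega, by omega⟩
    -- the removal step
    have key : ∀ e : ℤ, (e = 1 ∧ 1 ≤ j) ∨ (e = -1 ∧ j ≤ i) → ∀ x ∈ u, ∀ z ∈ d,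
        x - z = (2 * e) • a →
        ∃ f : ZMod n ≃ ZMod n, tourCost c f ≤ n * c a + (u.map fun b => c b - c a).sum +
          (d.map fun b => c b - c a).sum := by
      intro e he x hx z hz hxz
      obtain ⟨f, hf⟩ := ih (u.erase x) (d.erase z) (Γ + 2 * e) (by omega) (by
        refine ⟨?_, ?_, ?_, ?_, ?_, ?_, ?_⟩
        · rw [List.length_erase_of_mem hx, hu]; omega
        · rw [List.length_erase_of_mem hz, hd]; omega
        · intro b hb; exact hul b (List.mem_of_mem_erase hb)
        · intro b hb; exact hdl b (List.mem_of_mem_erase hb)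
        · rw [abs_le]
          rcases he with ⟨rfl, h⟩ | ⟨rfl, h⟩
          · constructor <;> omega
          · constructor <;> omega
        · rcases he with ⟨rfl, h⟩ | ⟨rfl, h⟩
          · exact ⟨k + 1, by omega⟩
          · exact ⟨k - 1, by omega⟩
        · rw [Wnd_sum_erase u x hx, Wnd_sum_erase d z hz, add_smul, ← hxz]
          rw [← hrel]; abel)
      refine ⟨f, hf.trans ?_⟩
      rw [Wnd_map_sum_erase _ u x hx, Wnd_map_sum_erase _ d z hz]
      have h1 := hmin x (hul x hx)
      have h2 := hmin z (hdl z hz)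
      linarith
    let s : ℤ := Γ - 4 * (i + 1) + 8 * j
    -- sign lists
    let E : List ℤ := List.replicate j 1 ++ List.replicate (i + 1 - j) (-1)
    have hEl : E.length = i + 1 := by simp [E]; omega
    have hEs : E.sum = 2 * j - (i + 1) := by
      simp only [E, List.sum_append, List.sum_replicate]
      simp only [nsmul_eq_mul]
      push_cast [Nat.cast_sub hj]
      ring
    have hE : ∀ e ∈ E, (e = 1 ∧ 1 ≤ j) ∨ (e = -1 ∧ j ≤ i) := by
      intro e he
      simp only [E, List.mem_append, List.mem_replicate] at he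
      rcases he with h | h
      · exact Or.inl ⟨h.2, by omega⟩
      · exact Or.inr ⟨h.2, by omega⟩
    by_cases hdeg : ∃ e ∈ E, ∃ x ∈ u, ∃ z ∈ d, x - z = (2 * e) • a
    · obtain ⟨e, he, x, hx, z, hz, hxz⟩ := hdeg
      exact key e (hE e he) x hx z hz hxz
    push Not at hdeg
    obtain ⟨m, hm⟩ : ∃ m : ℕ, 2 * (m : ℤ) = (g - 2 * (i + 1)) - s := by
      refine ⟨(((g : ℤ) - 2 * (i + 1) - s) / 2).toNat, ?_⟩
      rw [Int.toNat_of_nonneg (by omega)]
      omega
    have hmg : m ≤ g - 2 * (i + 1) := by omega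
    let F : List ℤ := List.replicate m 1 ++ List.replicate (g - 2 * (i + 1) - m) (-1)
    have hFl : F.length = g - 2 * (i + 1) := by simp [F]; omega
    have hFs : F.sum = -s := by
      simp only [F, List.sum_append, List.sum_replicate]
      simp only [nsmul_eq_mul]
      rw [Nat.cast_sub hmg, Nat.cast_sub (by omega)]
      push_cast
      omega
    have hF : ∀ e ∈ F, e = 1 ∨ e = -1 := by
      intro e he
      simp only [F, List.mem_append, List.mem_replicate] at he
      rcases he with h | h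
      · exact Or.inl h.2
      · exact Or.inr h.2
    obtain ⟨P, S, h1, h2, h3, h4, h5, h6⟩ := Wnd_build a (fun b => c b - c a) F E u d
      (by rw [hd, hEl]) (by rw [hu, hEl, hFl]; omega)
    obtain ⟨f, hf⟩ := winding_tour_aux C c hc P S
      (by
        intro p hp
        obtain ⟨k1, k2, k3, k4, k5⟩ := h3 p hp
        refine ⟨?_, hul _ k2, hul _ k3, hdl _ k4, hul _ k5, hdeg _ k1 _ k2 _ k4,
          hdeg _ k1 _ k3 _ k4⟩
        rcases hE _ k1 with h | h
        · exact Or.inl h.1
        · exact Or.inr h.1)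
      (fun p hp => ⟨hF _ (h4 p hp).1, hul _ (h4 p hp).2⟩) (by rw [h1, h2, hEl, hFl]; omega) (by
        rw [h5, hEs, hFs]
        have e1 : 4 * (2 * (j : ℤ) - (i + 1)) + -s = -Γ := by simp only [s]; ring
        rw [e1, neg_smul, sub_neg_eq_add, hrel])
    refine ⟨f, ?_⟩
    rw [hf, add_assoc, h6, add_assoc]

end Pool.CTS
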