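import Pool.Agent.CTS.Defs
import Pool.Agent.CTS.Crd
import Pool.Agent.CTS.Low
import Pool.Agent.CTS.Dyn
import Pool.Agent.CTS.Wnd
import Pool.Agent.CTS.Lad

open Finset

namespace Pool.CTS

/-- The dynamic-programming part of the formula. -/
noncomputable def dynPart {n : ℕ} [NeZero n] (w : ZMod n → ℝ) (g : ℕ) (a : ZMod n)
    (L : Finset (ZMod n)) : WithTop ℝ :=
  ((Finset.range g).filter fun i => 2 * i + 3 ≤ g).inf fun i =>
    ((Finset.Icc (-((g : ℤ) + 2 * i)) ((g : ℤ) + 2 * i)).filter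
      fun Γ : ℤ => Even (Γ - (g : ℤ))).inf fun Γ =>
        (Finset.univ : Finset (ZMod n)).inf fun x =>
          D w L (g + i) x + D w L i (x + Γ • a)

theorem Fin_inf_attained {α : Type*} (s : Finset α) (h : α → WithTop ℝ) (hne : s.inf h ≠ ⊤) :
    ∃ x ∈ s, s.inf h = h x := by
  have hs : s.Nonempty := by
    rcases s.eq_empty_or_nonempty with rfl | hs
    · simp at hne
    · exact hs
  obtain ⟨x, hx, hx'⟩ := Finset.exists_mem_eq_inf s hs h
  exact ⟨x, hx, hx'⟩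

theorem Fin_dyn_le {n : ℕ} [NeZero n] (w : ZMod n → ℝ) (g : ℕ) (a v : ZMod n)
    (L : Finset (ZMod n)) (hL : ∀ x, x ∈ L ↔ OnLine a v x) (i : ℕ) (u d : List (ZMod n)) (Γ : ℤ)
    (hi : 2 * i + 3 ≤ g) (hp : Pattern g a v i u d Γ) :
    dynPart w g a L ≤ (((u.map w).sum + (d.map w).sum : ℝ) : WithTop ℝ) := by
  obtain ⟨hu, hd, hul, hdl, hΓ, hev, hrel⟩ := hp
  have h1 := D_le w L u (fun b hb => (hL b).2 (hul b hb))
  have h2 := D_le w L d (fun b hb => (hL b).2 (hdl b hb))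
  rw [hu] at h1
  rw [hd] at h2
  have hds : d.sum = u.sum + Γ • a := by
    have : d.sum = u.sum + Γ • a - (u.sum - d.sum + Γ • a) := by abel
    rw [this, hrel, sub_zero]
  rw [hds] at h2
  have hi' : i ∈ (Finset.range g).filter fun i => 2 * i + 3 ≤ g := by
    simp only [Finset.mem_filter, Finset.mem_range]
    omega
  have hΓ' : Γ ∈ (Finset.Icc (-((g : ℤ) + 2 * i)) ((g : ℤ) + 2 * i)).filter
      fun Γ : ℤ => Even (Γ - (g : ℤ)) := by
    rw [Finset.mem_filter, Finset.mem_Icc]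
    rw [abs_le] at hΓ
    exact ⟨hΓ, hev⟩
  unfold dynPart
  refine (Finset.inf_le hi').trans ((Finset.inf_le hΓ').trans
    ((Finset.inf_le (Finset.mem_univ u.sum)).trans ?_))
  rw [WithTop.coe_add]
  exact add_le_add h1 h2

theorem Fin_dyn_attained {n : ℕ} [NeZero n] (w : ZMod n → ℝ) (g : ℕ) (a v : ZMod n)
    (L : Finset (ZMod n)) (hL : ∀ x, x ∈ L ↔ OnLine a v x) (hne : dynPart w g a L ≠ ⊤) :
    ∃ (i : ℕ) (u d : List (ZMod n)) (Γ : ℤ), 2 * i + 3 ≤ g ∧ Pattern g a v i u d Γ ∧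
      dynPart w g a L = (((u.map w).sum + (d.map w).sum : ℝ) : WithTop ℝ) := by
  unfold dynPart at hne ⊢
  obtain ⟨i, hi, hi'⟩ := Fin_inf_attained _ _ hne
  rw [hi'] at hne
  obtain ⟨Γ, hΓ, hΓ'⟩ := Fin_inf_attained _ _ hne
  rw [hΓ'] at hne
  obtain ⟨x, hx, hx'⟩ := Fin_inf_attained _ _ hne
  rw [hx'] at hne
  have hne1 : D w L (g + i) x ≠ ⊤ := fun h => hne (by rw [h]; exact top_add _)
  have hne2 : D w L i (x + Γ • a) ≠ ⊤ := fun h => hne (by rw [h]; exact add_top _)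
  obtain ⟨u, hul, huL, hus, huD⟩ := exists_D w L (g + i) x hne1
  obtain ⟨d, hdl, hdL, hds, hdD⟩ := exists_D w L i (x + Γ • a) hne2
  rw [Finset.mem_filter, Finset.mem_range] at hi
  rw [Finset.mem_filter, Finset.mem_Icc] at hΓ
  refine ⟨i, u, d, Γ, hi.2, ⟨hul, hdl, fun b hb => (hL b).1 (huL b hb),
    fun b hb => (hL b).1 (hdL b hb), abs_le.2 hΓ.1, hΓ.2, ?_⟩, ?_⟩
  · rw [hus, hds]; abel
  · rw [hi', hΓ', hx', huD, hdD, ← WithTop.coe_add]

theorem main {n : ℕ} [NeZero n] (hn : 3 ≤ n) (c : ZMod n → ℝ) (hc : ∀ x, c (-x) = c x)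
    (a v : ZMod n) (ha : a ≠ 0) (hmin : ∀ x, x ≠ 0 → c a ≤ c x) (g : ℕ) (hg : g = n.gcd a.val)
    (hg2 : 2 ≤ g) (hv : Nat.Coprime g v.val) (m : ℝ)
    (hm : IsLeast {z : ℝ | ∃ b, OnLine a v b ∧ z = c b - c a} m)
    (H : ∀ x, x ≠ 0 → x ≠ a → x ≠ -a →
      Dominated (fun z => c z - c a) a v x ∨ Expensive (fun z => c z - c a) g m a v x)
    (L : Finset (ZMod n)) (hL : ∀ x, x ∈ L ↔ OnLine a v x) :
    ∃ f₀ : ZMod n ≃ ZMod n, (∀ f, tourCost c f₀ ≤ tourCost c f) ∧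
      ((tourCost c f₀ : ℝ) : WithTop ℝ) = ((n * c a : ℝ) : WithTop ℝ) +
        min (((2 * ((g : ℝ) - 1) * m : ℝ)) : WithTop ℝ)
          (((Finset.range g).filter fun i => 2 * i + 3 ≤ g).inf fun i =>
            ((Finset.Icc (-((g : ℤ) + 2 * i)) ((g : ℤ) + 2 * i)).filter
              fun Γ : ℤ => Even (Γ - (g : ℤ))).inf fun Γ =>
                (Finset.univ : Finset (ZMod n)).inf fun x =>
                  D (fun z => c z - c a) L (g + i) x +
                    D (fun z => c z - c a) L i (x + Γ • a)) := by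
  obtain ⟨C⟩ := exists_coord a v ha (hg ▸ hg2) (hg ▸ hv)
  rw [← hg] at C
  set w : ZMod n → ℝ := fun z => c z - c a with hw
  set F : WithTop ℝ := ((n * c a : ℝ) : WithTop ℝ) +
    min (((2 * ((g : ℝ) - 1) * m : ℝ)) : WithTop ℝ) (dynPart w g a L) with hF
  have hline : ∀ b, OnLine a v b → c a ≤ c b := by
    intro b hb
    apply hmin
    rintro rfl
    obtain ⟨k, hk⟩ := hb
    have := congrArg C.q hk
    rw [map_zero, map_add, map_zsmul, C.qa, C.qv, smul_zero, add_zero] at this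
    have h1 : Fact (1 < g) := ⟨by omega⟩
    exact zero_ne_one this
  -- lower bound
  have hlow : ∀ f : ZMod n ≃ ZMod n, F ≤ ((tourCost c f : ℝ) : WithTop ℝ) := by
    intro f
    rcases lower_bound hn C c hc hmin m hm H f with h | ⟨i, u, d, Γ, hi, hp, h⟩
    · calc F ≤ ((n * c a : ℝ) : WithTop ℝ) + (((2 * ((g : ℝ) - 1) * m : ℝ)) : WithTop ℝ) := by
            rw [hF]; exact add_le_add le_rfl (min_le_left _ _)
        _ = ((n * c a + 2 * ((g : ℝ) - 1) * m : ℝ) : WithTop ℝ) := by rw [← WithTop.coe_add]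
        _ ≤ _ := WithTop.coe_le_coe.2 h
    · have hd := Fin_dyn_le w g a v L hL i u d Γ hi hp
      calc F ≤ ((n * c a : ℝ) : WithTop ℝ) +
              (((u.map w).sum + (d.map w).sum : ℝ) : WithTop ℝ) := by
            rw [hF]; exact add_le_add le_rfl ((min_le_right _ _).trans hd)
        _ = ((n * c a + (u.map w).sum + (d.map w).sum : ℝ) : WithTop ℝ) := by
            rw [← WithTop.coe_add]; congr 1; ring
        _ ≤ _ := WithTop.coe_le_coe.2 h
  -- upper bound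
  have hup : ∃ f : ZMod n ≃ ZMod n, ((tourCost c f : ℝ) : WithTop ℝ) ≤ F := by
    rcases le_total (((2 * ((g : ℝ) - 1) * m : ℝ)) : WithTop ℝ) (dynPart w g a L) with h | h
    · obtain ⟨b, hb, hmb⟩ := hm.1
      obtain ⟨f, hf⟩ := ladder_tour C c hc b hb
      refine ⟨f, ?_⟩
      rw [hF, min_eq_left h, ← WithTop.coe_add, WithTop.coe_le_coe, hf, hmb]
    · have hne : dynPart w g a L ≠ ⊤ := by
        intro ht
        rw [ht] at h
        exact absurd (top_le_iff.1 h) (WithTop.coe_ne_top)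
      obtain ⟨i, u, d, Γ, hi, hp, hD⟩ := Fin_dyn_attained w g a v L hL hne
      obtain ⟨f, hf⟩ := winding_tour C c hc hline i u d Γ (Or.inr hi) hp
      refine ⟨f, ?_⟩
      rw [hF, min_eq_right h, hD, ← WithTop.coe_add, WithTop.coe_le_coe]
      refine hf.trans (le_of_eq ?_)
      rw [hw]; ring
  obtain ⟨f, hf⟩ := hup
  refine ⟨f, ?_, ?_⟩
  · intro f'
    exact WithTop.coe_le_coe.1 (hf.trans (hlow f'))
  · exact le_antisymm hf (hlow f)

end Pool.CTS
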